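import Mathlib

/-! Tiles, patches, tilings, matching rules and discrepancy in Euclidean three-space. -/

set_option autoImplicit false

namespace Pool.Agent.H905Z.B7

open MeasureTheory

/-- Euclidean three-space. -/
abbrev E3 := EuclideanSpace ℝ (Fin 3)

/-- A prototile shape: nonempty, compact, the closure of its interior, boundary of finite area. -/
def IsProto (S : Set E3) : Prop :=
  S.Nonempty ∧ IsCompact S ∧ closure (interior S) = S ∧ μHE[2] (frontier S) < ⊤

/-- A tile: a type (label) and a translation vector. -/
abbrev Tile (K : ℕ) := Fin K × E3

variable {K : ℕ}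

/-- The set of points occupied by a tile: the shape of its type, translated. -/
def supp (shape : Fin K → Set E3) (τ : Tile K) : Set E3 := (fun y => y + τ.2) '' shape τ.1

/-- Distinct tiles of `P` have disjoint interiors. -/
def Packing (shape : Fin K → Set E3) (P : Set (Tile K)) : Prop :=
  P.Pairwise fun τ σ => Disjoint (interior (supp shape τ)) (interior (supp shape σ))

/-- A patch: a finite set of tiles with pairwise disjoint interiors. -/
def IsPatch (shape : Fin K → Set E3) (P : Set (Tile K)) : Prop := P.Finite ∧ Packing shape P

/-- The union of the tiles of `S`. -/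
def region (shape : Fin K → Set E3) (S : Set (Tile K)) : Set E3 := ⋃ τ ∈ S, supp shape τ

/-- A tiling: tiles with pairwise disjoint interiors covering the whole space. -/
def IsTiling (shape : Fin K → Set E3) (P : Set (Tile K)) : Prop :=
  Packing shape P ∧ region shape P = Set.univ

/-- The translate of a set of tiles by the vector `v`. -/
def shift (v : E3) (P : Set (Tile K)) : Set (Tile K) := (fun τ : Tile K => (τ.1, τ.2 + v)) '' P

/-- `P` obeys the matching rule `(r, 𝒜)`: for every point `x` the tiles of `P` meeting the ball
`B(x, r)` form a translate of a sub-patch of an element of `𝒜`. -/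
def Legal (shape : Fin K → Set E3) (r : ℝ) (𝒜 : Set (Set (Tile K))) (P : Set (Tile K)) : Prop :=
  ∀ x : E3, ∃ A ∈ 𝒜, ∃ Q ⊆ A, ∃ v : E3,
    {τ ∈ P | (supp shape τ ∩ Metric.ball x r).Nonempty} = shift v Q

/-- For every region that is the union of a finite set `S` of tiles of `P` and every type `t`,
the number of tiles of `P` of type `t` inside the region differs from `d t` times the volume by
at most `c t` times the area of the boundary (and that area is finite). -/
def Bounded (shape : Fin K → Set E3) (d c : Fin K → ℝ) (P : Set (Tile K)) : Prop :=
  ∀ S ⊆ P, S.Finite → μHE[2] (frontier (region shape S)) < ⊤ ∧ ∀ t : Fin K,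
    |({τ ∈ P | τ.1 = t ∧ supp shape τ ⊆ region shape S}.ncard : ℝ) -
        d t * (volume (region shape S)).toReal| ≤
      c t * (μHE[2] (frontier (region shape S))).toReal

end Pool.Agent.H905Z.B7
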