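import Mathlib
import Pool.Agent.H247Z.SBC.Defs

/-! General layer, combinatorial part: local functions, pure coboundaries, boundary counts,
the strict boundary estimate. -/

set_option autoImplicit false

namespace Pool.Agent.H905Z.SBCGen

open Finset Pool.Agent.H247Z.SBC

variable {K : ℕ}

lemma sh_sh {α : Type} (v a : Pt) (X : Cfg α) : sh v (sh a X) = sh (a + v) X := by
  funext i; simp only [sh]; congr 1; abel

lemma sh_zero {α : Type} (X : Cfg α) : sh 0 X = X := by
  funext i; simp [sh]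

lemma valid_sh {α : Type} {R : Fin 3 → α → α → Prop} {X : Cfg α} (h : Valid R X) (a : Pt) :
    Valid R (sh a X) := by
  intro v i
  have := h (v + a) i
  simp only [sh]
  rwa [add_right_comm] at this

lemma loc_const {α : Type} (c : ℝ) : Local (fun _ : Cfg α => c) := ⟨∅, fun _ _ _ => rfl⟩

lemma loc_op {α : Type} {f g : Cfg α → ℝ} (hf : Local f) (hg : Local g) (φ : ℝ → ℝ → ℝ) :
    Local (fun X => φ (f X) (g X)) := by
  obtain ⟨D, hD⟩ := hf
  obtain ⟨E, hE⟩ := hg
  refine ⟨D ∪ E, fun X Y h => ?_⟩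
  beta_reduce
  rw [hD X Y fun i hi => h i (mem_union_left _ hi), hE X Y fun i hi => h i (mem_union_right _ hi)]

lemma loc_sh {α : Type} {f : Cfg α → ℝ} (hf : Local f) (v : Pt) : Local (fun X => f (sh v X)) := by
  obtain ⟨D, hD⟩ := hf
  exact ⟨D.image (· + v), fun X Y h => hD _ _ fun i hi => h _ (mem_image_of_mem _ hi)⟩

lemma loc_factor {f : Cfg (Fin K) → ℝ} (hf : Local f) :
    ∃ (D : Finset Pt) (F : (D → Fin K) → ℝ), ∀ X, f X = F (fun i => X i) := by
  classical
  obtain ⟨D, hD⟩ := hf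
  refine ⟨D, fun p => if h : ∃ X : Cfg (Fin K), (fun i : D => X i) = p then f h.choose else 0,
    fun X => ?_⟩
  have h : ∃ Y : Cfg (Fin K), (fun i : D => Y i) = fun i : D => X i := ⟨X, rfl⟩
  beta_reduce
  rw [dif_pos h]
  exact hD _ _ fun i hi => (congrFun h.choose_spec ⟨i, hi⟩).symm

lemma loc_cont {f : Cfg (Fin K) → ℝ} (hf : Local f) : Continuous f := by
  obtain ⟨D, F, h⟩ := loc_factor hf
  have : f = F ∘ fun X (i : D) => X i := funext h
  rw [this]
  exact continuous_of_discreteTopology.comp (continuous_pi fun i => continuous_apply _)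

lemma loc_bdd {f : Cfg (Fin K) → ℝ} (hf : Local f) : ∃ M, 0 ≤ M ∧ ∀ X, |f X| ≤ M := by
  obtain ⟨D, F, h⟩ := loc_factor hf
  refine ⟨∑ p, |F p|, sum_nonneg fun _ _ => abs_nonneg _, fun X => ?_⟩
  rw [h]
  exact single_le_sum (f := fun p => |F p|) (fun _ _ => abs_nonneg _) (mem_univ _)

/-- finite sums of local coboundaries -/
inductive PC {α : Type} : (Cfg α → ℝ) → Prop
  | base (g : Cfg α → ℝ) (hg : Local g) (v : Pt) : PC (fun X => g (sh v X) - g X)
  | zero : PC (fun _ => 0)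
  | add {f g : Cfg α → ℝ} : PC f → PC g → PC (fun X => f X + g X)

lemma PC.loc {α : Type} {h : Cfg α → ℝ} (hh : PC h) : Local h := by
  induction hh with
  | base g hg v => exact loc_op (loc_sh hg v) hg (· - ·)
  | zero => exact loc_const 0
  | add _ _ h1 h2 => exact loc_op h1 h2 (· + ·)

lemma cob_pc {α : Type} {R : Fin 3 → α → α → Prop} {φ : Cfg α → ℝ} (h : Cob R φ) :
    ∃ p, PC p ∧ ∀ X, Valid R X → φ X = p X := by
  induction h with
  | base g hg v => exact ⟨_, PC.base g hg v, fun _ _ => rfl⟩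
  | zero => exact ⟨_, PC.zero, fun _ _ => rfl⟩
  | add _ _ h1 h2 =>
    obtain ⟨p, hp, hp'⟩ := h1
    obtain ⟨q, hq, hq'⟩ := h2
    exact ⟨_, PC.add hp hq, fun X hX => by beta_reduce; rw [hp' X hX, hq' X hX]⟩
  | congr _ he h1 =>
    obtain ⟨p, hp, hp'⟩ := h1
    exact ⟨p, hp, fun X hX => by rw [← he X hX, hp' X hX]⟩

/-- the bond `p` is broken in `X` -/
def Brk {α : Type} (R : Fin 3 → α → α → Prop) (X : Cfg α) (p : Pt × Fin 3) : Prop :=
  ¬ R p.2 (X p.1) (X (p.1 + uv p.2))

open Classical in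
lemma loc_brk {α : Type} (R : Fin 3 → α → α → Prop) (p : Pt × Fin 3) :
    Local (fun X : Cfg α => if Brk R X p then (1 : ℝ) else 0) := by
  refine ⟨{p.1, p.1 + uv p.2}, fun X Y h => ?_⟩
  have : Brk R X p ↔ Brk R Y p := by
    simp only [Brk]
    rw [h p.1 (by simp), h (p.1 + uv p.2) (by simp)]
  simp only [this]

lemma open_brk (R : Fin 3 → Fin K → Fin K → Prop) (p : Pt × Fin 3) :
    IsOpen {X : Cfg (Fin K) | Brk R X p} := by
  classical
  have h := (isOpen_ne (x := (0 : ℝ))).preimage (loc_cont (loc_brk R p))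
  convert h using 1
  ext X
  simp

/-- decomposition of a local function -/
theorem decomp {R : Fin 3 → Fin K → Fin K → Prop} (hR : Good R) {f : Cfg (Fin K) → ℝ}
    (hf : Local f) : ∃ (c : ℝ) (p u : Cfg (Fin K) → ℝ) (t : Finset (Pt × Fin 3)),
      PC p ∧ Local u ∧ (∀ X, f X = c + p X + u X) ∧ ∀ X, u X ≠ 0 → ∃ q ∈ t, Brk R X q := by
  obtain ⟨c, hc⟩ := hR.triv f hf
  obtain ⟨p, hp, hp'⟩ := cob_pc hc
  have hu : Local (fun X => f X - c - p X) := loc_op hf hp.loc (fun x y => x - c - y)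
  have hcl : IsClosed {X : Cfg (Fin K) | f X - c - p X ≠ 0} := by
    obtain ⟨D, F, h⟩ := loc_factor hu
    have : {X : Cfg (Fin K) | f X - c - p X ≠ 0} =
        (fun X (i : D) => X i) ⁻¹' {q | F q ≠ 0} := by
      ext X; simp [← h X]
    rw [this]
    exact (isClosed_discrete _).preimage (continuous_pi fun i => continuous_apply _)
  obtain ⟨t, ht⟩ := hcl.isCompact.elim_finite_subcover (fun q => {X | Brk R X q})
    (open_brk R) (by
      intro X hX
      by_contra hcon
      simp only [Set.mem_iUnion, Set.mem_ofPred_eq, not_exists] at hcon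
      apply hX
      rw [← hp' X fun v i => not_not.1 (hcon (v, i))]; ring)
  refine ⟨c, p, _, t, hp, hu, fun X => by ring, fun X hX => ?_⟩
  simpa using ht hX

lemma fin_supp {α : Type} {f : Cfg α → ℝ} (hf : Local f) {X Y : Cfg α}
    (h : {i | Y i ≠ X i}.Finite) :
    (Function.support fun a => f (sh a Y) - f (sh a X)).Finite := by
  obtain ⟨D, hD⟩ := hf
  refine ((h.prod D.finite_toSet).image fun q => q.1 - q.2).subset fun a ha => ?_
  by_contra hcon
  apply ha
  beta_reduce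
  rw [hD (sh a Y) (sh a X) fun i hi => ?_, sub_self]
  by_contra hne
  exact hcon ⟨(i + a, i), ⟨hne, hi⟩, by simp⟩

lemma PC.finsum_zero {α : Type} {p : Cfg α → ℝ} (hp : PC p) {X Y : Cfg α}
    (h : {i | Y i ≠ X i}.Finite) : ∑ᶠ a, (p (sh a Y) - p (sh a X)) = 0 := by
  induction hp with
  | base g hg v =>
    have h1 := fin_supp hg h
    have h2 := fin_supp (loc_sh hg v) h
    have h3 : ∀ a, g (sh v (sh a Y)) - g (sh a Y) - (g (sh v (sh a X)) - g (sh a X)) =
        (g (sh v (sh a Y)) - g (sh v (sh a X))) - (g (sh a Y) - g (sh a X)) := fun a => by ring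
    simp only [h3]
    rw [finsum_sub_distrib h2 h1]
    simp only [sh_sh]
    rw [← finsum_comp_equiv (Equiv.addRight v) (f := fun a => g (sh a Y) - g (sh a X))]
    simp
  | zero => simp
  | @add f g hf hg h1 h2 =>
    have h3 : ∀ a, f (sh a Y) + g (sh a Y) - (f (sh a X) + g (sh a X)) =
        (f (sh a Y) - f (sh a X)) + (g (sh a Y) - g (sh a X)) := fun a => by ring
    simp only [h3]
    rw [finsum_add_distrib (fin_supp hf.loc h) (fin_supp hg.loc h), h1, h2, add_zero]

lemma brk_sh {α : Type} {R : Fin 3 → α → α → Prop} {X : Cfg α} {a : Pt} {q : Pt × Fin 3} :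
    Brk R (sh a X) q ↔ Brk R X (q.1 + a, q.2) := by
  simp only [Brk, sh]
  rw [add_right_comm]

lemma fin_brk {α : Type} {R : Fin 3 → α → α → Prop} {X Y : Cfg α} (hX : Valid R X)
    (h : {i | Y i ≠ X i}.Finite) : {q | Brk R Y q}.Finite := by
  refine (((h.prod (Set.finite_univ (α := Fin 3))).image fun q => (q.1 - uv q.2, q.2)).union
    (h.prod (Set.finite_univ (α := Fin 3)))).subset fun q hq => ?_
  by_contra hcon
  simp only [Set.mem_union, not_or] at hcon
  apply hq
  have h1 : Y q.1 = X q.1 := by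
    by_contra hne; exact hcon.2 ⟨hne, trivial⟩
  have h2 : Y (q.1 + uv q.2) = X (q.1 + uv q.2) := by
    by_contra hne; exact hcon.1 ⟨(q.1 + uv q.2, q.2), ⟨hne, trivial⟩, by simp⟩
  rw [h1, h2]
  exact hX _ _

lemma abs_finsum_le {ι : Type} (φ : ι → ℝ) (S : Set ι) (hS : S.Finite) (M : ℝ)
    (hM : ∀ a, |φ a| ≤ M) (h : ∀ a, φ a ≠ 0 → a ∈ S) : |∑ᶠ a, φ a| ≤ M * S.ncard := by
  rw [finsum_eq_sum_of_support_subset (s := hS.toFinset) φ (fun a ha => by simpa using h a ha),
    Set.ncard_eq_toFinset_card S hS]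
  refine (abs_sum_le_sum_abs _ _).trans ((sum_le_card_nsmul _ _ M fun a _ => hM a).trans ?_)
  rw [nsmul_eq_mul, mul_comm]

/-- the strict boundary estimate -/
theorem sbc {R : Fin 3 → Fin K → Fin K → Prop} (hR : Good R) {f : Cfg (Fin K) → ℝ}
    (hf : Local f) : ∃ C : ℝ, 0 ≤ C ∧ ∀ X Y, Valid R X → {i | Y i ≠ X i}.Finite →
      |∑ᶠ a, (f (sh a Y) - f (sh a X))| ≤ C * {q | Brk R Y q}.ncard := by
  obtain ⟨c, p, u, t, hp, hu, hf', ht⟩ := decomp hR hf
  obtain ⟨M, hM0, hM⟩ := loc_bdd hu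
  refine ⟨M * t.card, by positivity, fun X Y hX h => ?_⟩
  have h0 : ∀ a, u (sh a X) = 0 := by
    intro a
    by_contra hne
    obtain ⟨q, _, hq⟩ := ht _ hne
    exact hq (valid_sh hX a _ _)
  have h3 : ∀ a, f (sh a Y) - f (sh a X) =
      (p (sh a Y) - p (sh a X)) + (u (sh a Y) - u (sh a X)) := fun a => by
    rw [hf', hf']; ring
  simp only [h3]
  rw [finsum_add_distrib (fin_supp hp.loc h) (fin_supp hu h), hp.finsum_zero h, zero_add]
  simp only [h0, sub_zero]
  have hB := fin_brk hX h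
  refine (abs_finsum_le _ ((fun q : (Pt × Fin 3) × (Pt × Fin 3) => q.2.1 - q.1.1) ''
    ((t : Set (Pt × Fin 3)) ×ˢ {q | Brk R Y q})) ((t.finite_toSet.prod hB).image _) M
    (fun a => hM _) fun a ha => ?_).trans ?_
  · obtain ⟨q, hq, hq'⟩ := ht _ ha
    exact ⟨(q, (q.1 + a, q.2)), ⟨hq, brk_sh.1 hq'⟩, by simp⟩
  · rw [mul_assoc]
    refine mul_le_mul_of_nonneg_left ?_ hM0
    have := Set.ncard_image_le (f := fun q : (Pt × Fin 3) × (Pt × Fin 3) => q.2.1 - q.1.1)
      (t.finite_toSet.prod hB)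
    rw [Set.ncard_prod, Set.ncard_coe_finset] at this
    exact_mod_cast this

/-- number of sites of `T` leaving `T` under the step `v` -/
def out (v : Pt) (T : Finset Pt) : ℕ := (T.filter fun a => a + v ∉ T).card

/-- boundary size -/
def bd (T : Finset Pt) : ℕ := ∑ i, out (uv i) T

lemma out_eq (v : Pt) (T : Finset Pt) : out v T = (T.image (· + v) \ T).card := by
  rw [out, ← card_image_of_injective _ (add_left_injective v)]
  congr 1
  ext b
  simp only [mem_image, mem_filter, mem_sdiff]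
  constructor
  · rintro ⟨a, ⟨h1, h2⟩, rfl⟩; exact ⟨⟨a, h1, rfl⟩, h2⟩
  · rintro ⟨⟨a, h1, rfl⟩, h2⟩; exact ⟨a, ⟨h1, h2⟩, rfl⟩

lemma out_neg (v : Pt) (T : Finset Pt) : out (-v) T = out v T := by
  rw [out_eq v, card_sdiff_comm (card_image_of_injective _ (add_left_injective v)), out]
  congr 1
  ext a
  simp only [mem_filter, mem_sdiff, mem_image, not_exists, not_and]
  refine and_congr_right fun _ => ⟨fun h b hb hab => h (by simpa [← hab] using hb), fun h hb => ?_⟩
  exact h _ hb (by simp)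

lemma out_add (v w : Pt) (T : Finset Pt) : out (v + w) T ≤ out v T + out w T := by
  unfold out
  rw [← card_image_of_injective (T.filter fun a => a + w ∉ T) (add_left_injective (-v))]
  refine le_trans (card_le_card fun a ha => ?_) (card_union_le _ _)
  rw [mem_filter] at ha
  by_cases h : a + v ∈ T
  · refine mem_union_right _ (mem_image.2 ⟨a + v, mem_filter.2 ⟨h, ?_⟩, by simp⟩)
    rw [add_assoc]; exact ha.2
  · exact mem_union_left _ (mem_filter.2 ⟨ha.1, h⟩)

lemma out_le (v : Pt) : ∃ C : ℕ, ∀ T, out v T ≤ C * bd T := by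
  let H : AddSubgroup Pt :=
    { carrier := {v | ∃ C : ℕ, ∀ T, out v T ≤ C * bd T}
      add_mem' := by
        rintro a b ⟨C, hC⟩ ⟨D, hD⟩
        refine ⟨C + D, fun T => (out_add a b T).trans ?_⟩
        rw [add_mul]; exact add_le_add (hC T) (hD T)
      zero_mem' := ⟨0, fun T => by simp [out]⟩
      neg_mem' := by
        rintro a ⟨C, hC⟩
        exact ⟨C, fun T => by rw [out_neg]; exact hC T⟩ }
  have h : v = ∑ i, v i • uv i := by
    funext j; simp [uv, Finset.sum_apply, Pi.single_apply]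
  change v ∈ H
  rw [h]
  refine H.sum_mem fun i _ => H.zsmul_mem ⟨1, fun T => ?_⟩ _
  rw [one_mul]
  exact single_le_sum (f := fun i => out (uv i) T) (fun _ _ => Nat.zero_le _) (mem_univ i)

lemma out_set (D : Finset Pt) : ∃ C : ℕ, ∀ T : Finset Pt,
    (T.filter fun a => ∃ w ∈ D, w + a ∉ T).card ≤ C * bd T := by
  choose C hC using out_le
  refine ⟨∑ w ∈ D, C w, fun T => ?_⟩
  have : (T.filter fun a => ∃ w ∈ D, w + a ∉ T) ⊆
      D.biUnion fun w => T.filter fun a => a + w ∉ T := by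
    intro a ha
    obtain ⟨h1, w, hw, h2⟩ := mem_filter.1 ha
    exact mem_biUnion.2 ⟨w, hw, mem_filter.2 ⟨h1, by rwa [add_comm]⟩⟩
  refine (card_le_card this).trans (card_biUnion_le.trans ?_)
  rw [sum_mul]
  exact sum_le_sum fun w _ => hC w T

lemma abs_sum_le {ι : Type} (T : Finset ι) (φ : ι → ℝ) (M : ℝ) (hM : ∀ a, |φ a| ≤ M) :
    |∑ a ∈ T, φ a| ≤ M * T.card := by
  refine (abs_sum_le_sum_abs _ _).trans ((sum_le_card_nsmul _ _ M fun a _ => hM a).trans ?_)
  rw [nsmul_eq_mul, mul_comm]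

lemma PC.sum_le {p : Cfg (Fin K) → ℝ} (hp : PC p) : ∃ C : ℝ, 0 ≤ C ∧
    ∀ (T : Finset Pt) (X : Cfg (Fin K)), |∑ a ∈ T, p (sh a X)| ≤ C * bd T := by
  induction hp with
  | base g hg v =>
    obtain ⟨M, hM0, hM⟩ := loc_bdd hg
    obtain ⟨C, hC⟩ := out_le v
    refine ⟨2 * M * C, by positivity, fun T X => ?_⟩
    simp only [sh_sh]
    rw [sum_sub_distrib, ← sum_image (s := T) (g := (· + v)) (f := fun a => g (sh a X))
      (fun a _ b _ h => add_right_cancel h), ← sum_sdiff_sub_sum_sdiff]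
    have h1 := abs_sum_le (T.image (· + v) \ T) (fun a => g (sh a X)) M fun a => hM _
    have h2 := abs_sum_le (T \ T.image (· + v)) (fun a => g (sh a X)) M fun a => hM _
    rw [← card_sdiff_comm (card_image_of_injective _ (add_left_injective v))] at h2
    rw [← out_eq] at h1 h2
    have h3 : (out v T : ℝ) ≤ C * bd T := by exact_mod_cast hC T
    have h4 := mul_le_mul_of_nonneg_left h3 hM0
    refine (abs_sub _ _).trans ?_
    nlinarith
  | zero => exact ⟨0, le_rfl, fun T X => by simp⟩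
  | add _ _ h1 h2 =>
    obtain ⟨C, hC0, hC⟩ := h1
    obtain ⟨D, hD0, hD⟩ := h2
    refine ⟨C + D, by positivity, fun T X => ?_⟩
    rw [sum_add_distrib, add_mul]
    exact (abs_add_le _ _).trans (add_le_add (hC T X) (hD T X))

/-- discrepancy bound on a finite set of sites all of whose internal bonds are unbroken -/
theorem disc {R : Fin 3 → Fin K → Fin K → Prop} (hR : Good R) {f : Cfg (Fin K) → ℝ}
    (hf : Local f) : ∃ c C : ℝ, 0 ≤ C ∧ ∀ (T : Finset Pt) (X : Cfg (Fin K)),
      (∀ v i, v ∈ T → v + uv i ∈ T → R i (X v) (X (v + uv i))) →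
      |∑ a ∈ T, f (sh a X) - c * T.card| ≤ C * bd T := by
  classical
  obtain ⟨c, p, u, t, hp, hu, hf', ht⟩ := decomp hR hf
  obtain ⟨M, hM0, hM⟩ := loc_bdd hu
  obtain ⟨C, hC0, hC⟩ := hp.sum_le
  obtain ⟨C', hC'⟩ := out_set (t.image (·.1) ∪ t.image fun q => q.1 + uv q.2)
  refine ⟨c, C + M * C', by positivity, fun T X hX => ?_⟩
  simp only [hf']
  rw [sum_add_distrib, sum_add_distrib, sum_const, nsmul_eq_mul]
  have h1 : ∑ a ∈ T, u (sh a X) = ∑ a ∈ T.filter
      (fun a => ∃ w ∈ t.image (·.1) ∪ t.image (fun q => q.1 + uv q.2), w + a ∉ T), u (sh a X) := by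
    refine (sum_filter_of_ne fun a _ ha => ?_).symm
    obtain ⟨q, hq, hq'⟩ := ht _ ha
    by_contra hcon
    push Not at hcon
    refine brk_sh.1 hq' (hX _ _ (hcon _ (mem_union_left _ (mem_image_of_mem _ hq))) ?_)
    have := hcon _ (mem_union_right _ (mem_image_of_mem _ hq))
    rwa [add_right_comm] at this
  have h2 := abs_sum_le (T.filter
      (fun a => ∃ w ∈ t.image (·.1) ∪ t.image (fun q => q.1 + uv q.2), w + a ∉ T))
      (fun a => u (sh a X)) M fun a => hM _
  rw [← h1] at h2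
  have h3 : ((T.filter (fun a => ∃ w ∈ t.image (·.1) ∪ t.image (fun q => q.1 + uv q.2),
      w + a ∉ T)).card : ℝ) ≤ C' * bd T := by exact_mod_cast hC' T
  have h4 := mul_le_mul_of_nonneg_left h3 hM0
  have h5 := hC T X
  have h6 : (T.card : ℝ) * c + ∑ a ∈ T, p (sh a X) + ∑ a ∈ T, u (sh a X) - c * T.card =
      ∑ a ∈ T, p (sh a X) + ∑ a ∈ T, u (sh a X) := by ring
  rw [h6]
  refine (abs_add_le _ _).trans ?_
  nlinarith

/-- the box with side `n + 1` -/
noncomputable def box (n : ℕ) : Finset Pt := Fintype.piFinset fun _ => Ico (0 : ℤ) (n + 1)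

lemma card_box (n : ℕ) : (box n).card = (n + 1) ^ 3 := by
  simp [box, Fintype.card_piFinset]

lemma bd_box (n : ℕ) : bd (box n) ≤ 3 * (n + 1) ^ 2 := by
  have : ∀ i, out (uv i) (box n) ≤ (n + 1) ^ 2 := by
    intro i
    have h1 : ((box n).filter fun a => a + uv i ∉ box n) ⊆
        Fintype.piFinset fun j => if j = i then {(n : ℤ)} else Ico (0 : ℤ) (n + 1) := by
      intro a ha
      obtain ⟨h1, h2⟩ := mem_filter.1 ha
      simp only [box, Fintype.mem_piFinset, mem_Ico, not_forall] at h1 h2 ⊢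
      intro j
      split_ifs with hj
      · subst hj
        obtain ⟨k, hk⟩ := h2
        by_cases hkj : k = j
        · subst hkj
          have := h1 k
          simp only [uv, Pi.add_apply, Pi.single_eq_same] at hk
          rw [mem_singleton]; omega
        · simp only [uv, Pi.add_apply, Pi.single_eq_of_ne hkj, add_zero] at hk
          exact absurd (h1 k) hk
      · exact mem_Ico.2 (h1 j)
    refine (card_le_card h1).trans ?_
    rw [Fintype.card_piFinset, Fin.prod_univ_three]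
    fin_cases i <;> simp [sq]
  calc bd (box n) ≤ ∑ _i : Fin 3, (n + 1) ^ 2 := sum_le_sum fun i _ => this i
    _ = 3 * (n + 1) ^ 2 := by simp

lemma ratio_box (C : ℝ) (hC : 0 ≤ C) (n : ℕ) :
    C * bd (box n) ≤ (3 * C / ((n : ℝ) + 1)) * (box n).card := by
  have h1 : (bd (box n) : ℝ) ≤ 3 * ((n : ℝ) + 1) ^ 2 := by exact_mod_cast bd_box n
  rw [card_box]
  push_cast
  refine (mul_le_mul_of_nonneg_left h1 hC).trans (le_of_eq ?_)
  field_simp

end Pool.Agent.H905Z.SBCGen
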