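import Mathlib
import Pool.Agent.H905Z.SBCGen.B7Defs
import Pool.Agent.H905Z.SBCGen.Core

/-! Geometry of unit cubes. -/

set_option autoImplicit false

namespace Pool.Agent.H905Z.B7

open MeasureTheory Set Pool.Agent.H247Z.SBC

/-- coordinatewise product set -/
def bx {n : ℕ} (I : Fin n → Set ℝ) : Set (EuclideanSpace ℝ (Fin n)) := {y | ∀ j, y j ∈ I j}

lemma bx_eq {n : ℕ} (I : Fin n → Set ℝ) :
    bx I = PiLp.homeomorph 2 (fun _ : Fin n => ℝ) ⁻¹' Set.pi univ I := by
  ext y
  simp only [bx, mem_ofPred_eq, mem_preimage, mem_pi, mem_univ, forall_const]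
  rfl

lemma interior_bx {n : ℕ} (I : Fin n → Set ℝ) : interior (bx I) = bx fun j => interior (I j) := by
  rw [bx_eq, bx_eq, ← Homeomorph.preimage_interior, interior_pi_set finite_univ]

lemma closure_bx {n : ℕ} (I : Fin n → Set ℝ) : closure (bx I) = bx fun j => closure (I j) := by
  rw [bx_eq, bx_eq, ← Homeomorph.preimage_closure, closure_pi_set]

lemma meas_bx {n : ℕ} (I : Fin n → Set ℝ) (h : ∀ j, MeasurableSet (I j)) :
    MeasurableSet (bx I) := by
  rw [bx_eq]
  exact (MeasurableSet.univ_pi h).preimage (Homeomorph.continuous _).measurable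

lemma vol_bx {n : ℕ} (I : Fin n → Set ℝ) (h : ∀ j, MeasurableSet (I j)) :
    volume (bx I) = ∏ j, volume (I j) := by
  have : bx I = WithLp.ofLp ⁻¹' Set.pi univ I := by
    ext y; simp [bx]
  rw [this, (PiLp.volume_preserving_ofLp (Fin n)).measure_preimage
    (MeasurableSet.univ_pi h).nullMeasurableSet, volume_pi_pi]

def cub (z : E3) : Set E3 := bx fun j => Icc (z j) (z j + 1)
def ocub (z : E3) : Set E3 := bx fun j => Ioo (z j) (z j + 1)

lemma interior_cub (z : E3) : interior (cub z) = ocub z := by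
  simp only [cub, ocub, interior_bx, interior_Icc]

lemma closure_ocub (z : E3) : closure (ocub z) = cub z := by
  simp only [cub, ocub, closure_bx]
  congr 1
  funext j
  exact closure_Ioo (by linarith)

lemma closed_cub (z : E3) : IsClosed (cub z) := by
  rw [← closure_ocub]; exact isClosed_closure

lemma open_ocub (z : E3) : IsOpen (ocub z) := by
  rw [← interior_cub]; exact isOpen_interior

lemma compact_cub (z : E3) : IsCompact (cub z) := by
  rw [cub, bx_eq, Homeomorph.isCompact_preimage]
  exact isCompact_univ_pi fun _ => isCompact_Icc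

lemma vol_cub (z : E3) : volume (cub z) = 1 := by
  rw [cub, vol_bx _ fun _ => measurableSet_Icc]; simp

lemma vol_ocub (z : E3) : volume (ocub z) = 1 := by
  rw [ocub, vol_bx _ fun _ => measurableSet_Ioo]; simp

lemma ocub_sub (z : E3) : ocub z ⊆ cub z := fun _ h j => Ioo_subset_Icc_self (h j)

lemma ocub_ae (z : E3) : ocub z =ᵐ[volume] cub z :=
  ae_eq_of_subset_of_measure_ge (ocub_sub z) (by rw [vol_cub, vol_ocub])
    (open_ocub z).measurableSet.nullMeasurableSet (by rw [vol_cub]; simp)

lemma supp_eq {K : ℕ} (τ : Tile K) : supp (fun _ => cub 0) τ = cub τ.2 := by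
  ext y
  constructor
  · rintro ⟨w, hw, rfl⟩ j
    have := hw j
    simp only [PiLp.zero_apply, zero_add, mem_Icc, PiLp.add_apply] at this ⊢
    constructor <;> linarith [this.1, this.2]
  · intro hy
    refine ⟨y - τ.2, fun j => ?_, by simp⟩
    have := hy j
    simp only [PiLp.zero_apply, zero_add, mem_Icc, PiLp.sub_apply] at this ⊢
    constructor <;> linarith [this.1, this.2]

/-- a slice orthogonal to the axis `i` -/
def slice (i : Fin 3) (c : ℝ) (I : Fin 3 → Set ℝ) : Set E3 :=
  {y | y i = c ∧ ∀ j, j ≠ i → y j ∈ I j}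

lemma area_slice (i : Fin 3) (c : ℝ) (I : Fin 3 → Set ℝ) (h : ∀ j, MeasurableSet (I j))
    (h1 : ∀ j, volume (I j) = 1) : μHE[2] (slice i c I) = 1 := by
  let φ : EuclideanSpace ℝ (Fin 2) → E3 := fun w =>
    WithLp.toLp 2 (Fin.insertNth (α := fun _ => ℝ) i c (WithLp.ofLp w))
  have hφ : Isometry φ := by
    refine Isometry.of_dist_eq fun a b => ?_
    rw [EuclideanSpace.dist_eq, EuclideanSpace.dist_eq, Fin.sum_univ_succAbove _ i]
    simp [φ]
  have h2 : slice i c I = φ '' bx fun k => I (i.succAbove k) := by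
    ext y
    constructor
    · rintro ⟨h3, h4⟩
      refine ⟨WithLp.toLp 2 fun k => y (i.succAbove k), fun k => h4 _ (Fin.succAbove_ne i k), ?_⟩
      ext j
      rcases eq_or_ne j i with rfl | hj
      · simp [φ, h3]
      · obtain ⟨k, rfl⟩ := Fin.exists_succAbove_eq hj
        simp [φ]
    · rintro ⟨w, hw, rfl⟩
      refine ⟨by simp [φ], fun j hj => ?_⟩
      obtain ⟨k, rfl⟩ := Fin.exists_succAbove_eq hj
      simpa [φ] using hw k
  rw [h2, hφ.euclideanHausdorffMeasure_image, EuclideanSpace.euclideanHausdorffMeasure_eq_volume,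
    vol_bx _ fun _ => h _]
  simp [h1]

lemma meas_slice (i : Fin 3) (c : ℝ) (I : Fin 3 → Set ℝ) (h : ∀ j, MeasurableSet (I j)) :
    MeasurableSet (slice i c I) := by
  have : slice i c I = bx fun j => if j = i then {c} else I j := by
    ext y
    constructor
    · rintro ⟨h1, h2⟩ j
      beta_reduce
      split_ifs with hj
      · subst hj; exact h1
      · exact h2 j hj
    · intro h1
      refine ⟨by simpa using h1 i, fun j hj => by simpa [hj] using h1 j⟩
  rw [this]
  refine meas_bx _ fun j => ?_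
  split_ifs
  · exact measurableSet_singleton c
  · exact h j

lemma frontier_cub (z : E3) : μHE[2] (frontier (cub z)) < ⊤ := by
  have h : frontier (cub z) ⊆ ⋃ i : Fin 3, (slice i (z i) (fun j => Icc (z j) (z j + 1)) ∪
      slice i (z i + 1) (fun j => Icc (z j) (z j + 1))) := by
    intro y hy
    rw [(closed_cub z).frontier_eq, interior_cub] at hy
    obtain ⟨h1, h2⟩ := hy
    simp only [ocub, bx, mem_ofPred_eq, not_forall] at h2
    obtain ⟨i, hi⟩ := h2
    refine mem_iUnion.2 ⟨i, ?_⟩
    have h3 := h1 i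
    simp only [mem_Icc, mem_Ioo, not_and_or, not_lt] at h3 hi
    rcases hi with hi | hi
    · exact Or.inl ⟨le_antisymm hi h3.1, fun j _ => h1 j⟩
    · exact Or.inr ⟨le_antisymm h3.2 hi, fun j _ => h1 j⟩
  refine (measure_mono h).trans_lt ((measure_iUnion_fintype_le _ _).trans_lt ?_)
  refine ENNReal.sum_lt_top.2 fun i _ => (measure_union_le _ _).trans_lt ?_
  rw [area_slice _ _ _ (fun _ => measurableSet_Icc) (fun _ => by simp),
    area_slice _ _ _ (fun _ => measurableSet_Icc) (fun _ => by simp)]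
  simp

/-- lattice points -/
noncomputable def lat (a : Pt) : E3 := WithLp.toLp 2 fun j => (a j : ℝ)

@[simp] lemma lat_apply (a : Pt) (j : Fin 3) : lat a j = a j := rfl

lemma lat_add (a b : Pt) : lat (a + b) = lat a + lat b := by
  ext j; simp

lemma lat_neg (a : Pt) : lat (-a) = -lat a := by
  ext j; simp

lemma lat_zero : lat 0 = 0 := by
  ext j; simp

lemma lat_inj {a b : Pt} (h : lat a = lat b) : a = b := by
  funext j
  have := congrArg (fun y : E3 => y j) h
  simpa using this

lemma norm_lat_uv (i : Fin 3) : ‖lat (uv i)‖ = 1 := by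
  rw [EuclideanSpace.norm_eq]
  fin_cases i <;> simp [uv, Fin.sum_univ_three]

lemma eq_of_mem {a b : Pt} {v y : E3} (h1 : y ∈ ocub (lat a + v)) (h2 : y ∈ cub (lat b + v)) :
    a = b := by
  funext j
  have h3 := h1 j
  have h4 := h2 j
  simp only [PiLp.add_apply, lat_apply, mem_Ioo, mem_Icc] at h3 h4
  have h5 : (a j : ℝ) < b j + 1 := by linarith [h3.1, h4.2]
  have h6 : (b j : ℝ) < a j + 1 := by linarith [h3.2, h4.1]
  have h7 : a j < b j + 1 := by exact_mod_cast h5
  have h8 : b j < a j + 1 := by exact_mod_cast h6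
  omega

/-- centre of the cube -/
noncomputable def ctr (z : E3) : E3 := z + WithLp.toLp 2 fun _ => (1 / 2 : ℝ)

lemma ctr_mem (z : E3) : ctr z ∈ ocub z := by
  intro j
  simp only [ctr, PiLp.add_apply, mem_Ioo]
  constructor <;> norm_num

lemma dist_ctr (z w : E3) : dist (ctr (z + w)) (ctr z) = ‖w‖ := by
  rw [ctr, ctr, dist_add_right, dist_eq_norm]; simp

end Pool.Agent.H905Z.B7
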