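import Mathlib
import Pool.Agent.H905Z.SBCGen.B7Geo

/-! From a good nearest-neighbour rule to a matching rule for labelled unit cubes. -/

set_option autoImplicit false

namespace Pool.Agent.H905Z.B7

open MeasureTheory Set Pool.Agent.H247Z.SBC Pool.Agent.H905Z.SBCGen

variable {K : ℕ}

noncomputable def cube3 : Finset Pt := Fintype.piFinset fun _ => Finset.Icc (-3 : ℤ) 3

/-- the allowed patch cut out of a configuration -/
def patch (X : Cfg (Fin K)) : Set (Tile K) := (fun a => (X a, lat a)) '' (cube3 : Set Pt)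

def AA (R : Fin 3 → Fin K → Fin K → Prop) : Set (Set (Tile K)) := patch '' {X | Valid R X}

abbrev shp (K : ℕ) : Fin K → Set E3 := fun _ => cub 0

lemma AA_fin (R : Fin 3 → Fin K → Fin K → Prop) : (AA R).Finite := by
  refine ((finite_univ.prod (cube3.finite_toSet.image lat)).finite_subsets).subset ?_
  rintro _ ⟨X, _, rfl⟩ _ ⟨a, ha, rfl⟩
  exact ⟨trivial, a, ha, rfl⟩

lemma packing_range (X : Cfg (Fin K)) : Packing (shp K) (range fun a => (X a, lat a)) := by
  rintro _ ⟨a, rfl⟩ _ ⟨b, rfl⟩ hne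
  simp only [supp_eq, interior_cub]
  refine disjoint_left.2 fun y h1 h2 => hne ?_
  have : a = b := eq_of_mem (v := 0) (y := y) (by simpa using h1) (by simpa using ocub_sub _ h2)
  rw [this]

lemma eq_of_meet {P : Set (Tile K)} (hP : Packing (shp K) P) {τ σ : Tile K} (h1 : τ ∈ P)
    (h2 : σ ∈ P) {y : E3} (h3 : y ∈ ocub τ.2) (h4 : y ∈ cub σ.2) : τ = σ := by
  by_contra hne
  have h5 := hP h1 h2 hne
  simp only [supp_eq, interior_cub] at h5
  rw [← closure_ocub] at h4
  obtain ⟨w, h6, h7⟩ := mem_closure_iff.1 h4 _ (open_ocub _) h3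
  exact disjoint_left.1 h5 h6 h7

lemma uniq {P : Set (Tile K)} (hP : Packing (shp K) P) {t t' : Fin K} {z : E3} (h1 : (t, z) ∈ P)
    (h2 : (t', z) ∈ P) : t = t' :=
  congrArg Prod.fst (eq_of_meet hP h1 h2 (ctr_mem z) (ocub_sub _ (ctr_mem z)))

lemma aligned {R : Fin 3 → Fin K → Fin K → Prop} {P : Set (Tile K)}
    (hL : Legal (shp K) 2 (AA R) P) {τ σ : Tile K} (h1 : τ ∈ P) (h2 : σ ∈ P) {x y : E3}
    (hx : x ∈ cub τ.2) (hy : y ∈ cub σ.2) (hd : dist y x < 2) :
    ∃ X a b v, Valid R X ∧ τ = (X a, lat a + v) ∧ σ = (X b, lat b + v) := by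
  obtain ⟨_, ⟨X, hX, rfl⟩, Q, hQ, v, h⟩ := hL x
  have h3 : τ ∈ shift v Q := by
    rw [← h]; exact ⟨h1, x, by rwa [supp_eq], by simp⟩
  have h4 : σ ∈ shift v Q := by
    rw [← h]; exact ⟨h2, y, by rwa [supp_eq], hd⟩
  obtain ⟨τ', h5, rfl⟩ := h3
  obtain ⟨σ', h6, rfl⟩ := h4
  obtain ⟨a, _, rfl⟩ := hQ h5
  obtain ⟨b, _, rfl⟩ := hQ h6
  exact ⟨X, a, b, v, hX, rfl, rfl⟩

lemma adj {R : Fin 3 → Fin K → Fin K → Prop} {P : Set (Tile K)}
    (hL : Legal (shp K) 2 (AA R) P) {t t' : Fin K} {z : E3} {i : Fin 3} (h1 : (t, z) ∈ P)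
    (h2 : (t', z + lat (uv i)) ∈ P) : R i t t' := by
  obtain ⟨X, a, b, v, hX, h3, h4⟩ := aligned hL h1 h2 (ocub_sub _ (ctr_mem _))
    (ocub_sub _ (ctr_mem _)) (by rw [dist_ctr, norm_lat_uv]; norm_num)
  simp only [Prod.mk.injEq] at h3 h4
  obtain ⟨rfl, rfl⟩ := h3
  obtain ⟨rfl, h5⟩ := h4
  have : b = a + uv i := by
    apply lat_inj
    rw [lat_add]
    exact (add_right_cancel (by rw [← h5]; abel : lat a + lat (uv i) + v = lat b + v)).symm
  rw [this]
  exact hX a i

theorem exists_tiling {R : Fin 3 → Fin K → Fin K → Prop} {X : Cfg (Fin K)} (hX : Valid R X) :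
    IsTiling (shp K) (range fun a => (X a, lat a)) ∧
      Legal (shp K) 2 (AA R) (range fun a => (X a, lat a)) := by
  refine ⟨⟨packing_range X, eq_univ_of_forall fun y => ?_⟩, fun x => ?_⟩
  · refine mem_biUnion (mem_range_self fun j => ⌊y j⌋) ?_
    rw [supp_eq]
    intro j
    exact ⟨Int.floor_le _, (Int.lt_floor_add_one _).le⟩
  · set m : Pt := fun j => ⌊x j⌋ with hm
    refine ⟨_, ⟨sh m X, valid_sh hX m, rfl⟩, shift (-lat m) {τ ∈ range fun a => (X a, lat a) |
      (supp (shp K) τ ∩ Metric.ball x 2).Nonempty}, ?_, lat m, ?_⟩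
    · rintro _ ⟨_, ⟨⟨a, rfl⟩, y, h1, h2⟩, rfl⟩
      refine ⟨a - m, Fintype.mem_piFinset.2 fun j => ?_, ?_⟩
      · rw [supp_eq] at h1
        have h3 := h1 j
        have h4 := abs_lt.1 ((PiLp.dist_apply_le y x j).trans_lt h2)
        simp only [lat_apply, mem_Icc] at h3
        have h5 : (⌊x j⌋ : ℝ) ≤ x j := Int.floor_le _
        have h6 : x j < ⌊x j⌋ + 1 := Int.lt_floor_add_one _
        have h7 : (a j : ℝ) < ⌊x j⌋ + 3 := by linarith [h3.1, h4.2]
        have h8 : (⌊x j⌋ : ℝ) < a j + 3 := by linarith [h3.2, h4.1]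
        have h9 : a j < ⌊x j⌋ + 3 := by exact_mod_cast h7
        have h10 : ⌊x j⌋ < a j + 3 := by exact_mod_cast h8
        simp only [Pi.sub_apply, hm, Finset.mem_Icc]
        omega
      · simp only [sh, sub_add_cancel]
        rw [sub_eq_add_neg, lat_add, lat_neg]
    · rw [shift, shift, image_image]
      simp

theorem aperiodic {R : Fin 3 → Fin K → Fin K → Prop} (hR : Good R) {P : Set (Tile K)}
    (hP : IsTiling (shp K) P) (hL : Legal (shp K) 2 (AA R) P) (w : E3) (hw : w ≠ 0) :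
    shift w P ≠ P := by
  intro hper
  have hcov : ∀ y : E3, ∃ σ ∈ P, y ∈ cub σ.2 := by
    intro y
    have : y ∈ region (shp K) P := by rw [hP.2]; trivial
    simpa only [region, mem_iUnion, supp_eq, exists_prop] using this
  have hstep : ∀ s : Pt, ‖lat s‖ = 1 → ∀ z, (∃ t, (t, z) ∈ P) → ∃ t, (t, z + lat s) ∈ P := by
    rintro s hs z ⟨t, ht⟩
    obtain ⟨σ, h1, h2⟩ := hcov (ctr (z + lat s))
    obtain ⟨X, a, b, v, _, h3, rfl⟩ := aligned hL ht h1 (ocub_sub _ (ctr_mem _)) h2
      (by rw [dist_ctr, hs]; norm_num)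
    simp only [Prod.mk.injEq] at h3
    obtain ⟨_, rfl⟩ := h3
    have h4 : lat a + v + lat s = lat (a + s) + v := by rw [lat_add]; abel
    rw [h4] at h2 ⊢
    rw [eq_of_mem (ctr_mem _) h2]
    exact ⟨_, h1⟩
  let H : AddSubgroup Pt :=
    { carrier := {s | ∀ z, (∃ t, (t, z) ∈ P) →
        (∃ t, (t, z + lat s) ∈ P) ∧ ∃ t, (t, z + lat (-s)) ∈ P}
      add_mem' := by
        intro a b ha hb z hz
        constructor
        · rw [lat_add, ← add_assoc]; exact (hb _ (ha z hz).1).1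
        · rw [neg_add, lat_add, ← add_assoc]; exact (hb _ (ha z hz).2).2
      zero_mem' := by
        intro z hz
        simpa [lat_zero] using hz
      neg_mem' := by
        intro a ha z hz
        rw [neg_neg]
        exact (ha z hz).symm }
  have hall : ∀ s : Pt, s ∈ H := by
    intro s
    have h : s = ∑ i, s i • uv i := by
      funext j; simp [uv, Finset.sum_apply, Pi.single_apply]
    rw [h]
    refine H.sum_mem fun i _ => H.zsmul_mem (fun z hz => ⟨hstep _ (norm_lat_uv i) z hz,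
      hstep _ (by rw [lat_neg, norm_neg, norm_lat_uv]) z hz⟩) _
  obtain ⟨⟨t₀, γ⟩, h0, _⟩ := hcov 0
  choose X hX using fun a => (hall a γ ⟨t₀, h0⟩).1
  have hval : Valid R X := fun a i => adj hL (hX a) (by rw [add_assoc, ← lat_add]; exact hX _)
  have hsh : ∀ t z, (t, z) ∈ P → (t, z + w) ∈ P := fun t z h => by
    rw [← hper]; exact ⟨_, h, rfl⟩
  set m : Pt := fun j => ⌊w j⌋ with hm
  have h1 : (t₀, γ + w) = (X m, γ + lat m) := by
    refine eq_of_meet hP.1 (hsh _ _ h0) (hX m)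
      (y := γ + WithLp.toLp 2 fun j => (w j + m j + 1) / 2) (fun j => ?_) (fun j => ?_)
    all_goals
      have h5 : (⌊w j⌋ : ℝ) ≤ w j := Int.floor_le _
      have h6 : w j < ⌊w j⌋ + 1 := Int.lt_floor_add_one _
      simp only [PiLp.add_apply, lat_apply, mem_Ioo, mem_Icc, hm]
      constructor <;> linarith
  have h2 : w = lat m := add_left_cancel (congrArg Prod.snd h1)
  refine hR.aperiodic X hval m (fun h => hw (by rw [h2, h, lat_zero])) (funext fun a => ?_)
  refine uniq hP.1 (hX (a + m)) ?_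
  rw [lat_add, ← add_assoc, ← h2]
  exact hsh _ _ (hX a)

open Classical in
/-- exposed faces of a finite set of tiles -/
noncomputable def Bd (S : Finset (Tile K)) : Finset (Tile K × Fin 3) :=
  (S ×ˢ Finset.univ).filter fun q => ¬ ∃ t, (t, q.1.2 + lat (uv q.2)) ∈ S

theorem count_bound {R : Fin 3 → Fin K → Fin K → Prop} (hR : Good R) (t : Fin K) :
    ∃ d c : ℝ, 0 ≤ c ∧ ∀ S : Finset (Tile K), (∀ t t' z, (t, z) ∈ S → (t', z) ∈ S → t = t') →
      (∀ t t' z i, (t, z) ∈ S → (t', z + lat (uv i)) ∈ S → R i t t') →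
      |((S.filter fun τ => τ.1 = t).card : ℝ) - d * S.card| ≤ c * (Bd S).card := by
  classical
  have hf : Local (fun X : Cfg (Fin K) => if X 0 = t then (1 : ℝ) else 0) :=
    ⟨{0}, fun X Y h => by simp only [h 0 (by simp)]⟩
  obtain ⟨d, c, hc, h⟩ := disc hR hf
  obtain ⟨Z, _⟩ := hR.nonempty
  refine ⟨d, c, hc, fun S h1 h2 => ?_⟩
  let key : Tile K → E3 := fun τ => WithLp.toLp 2 fun j => Int.fract (τ.2 j)
  let flo : Tile K → Pt := fun τ j => ⌊τ.2 j⌋
  have hdec : ∀ τ : Tile K, τ.2 = key τ + lat (flo τ) := by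
    intro τ; ext j; simp [key, flo]
  have hfib : ∀ γ : E3, |(((S.filter fun τ => τ.1 = t).filter fun τ => key τ = γ).card : ℝ) -
      d * (S.filter fun τ => key τ = γ).card| ≤
        c * ((Bd S).filter fun q => key q.1 = γ).card := by
    intro γ
    set Sγ := S.filter fun τ => key τ = γ with hSγ
    have hpos : ∀ τ ∈ Sγ, (τ.1, γ + lat (flo τ)) ∈ S := by
      intro τ hτ
      obtain ⟨h3, h4⟩ := Finset.mem_filter.1 hτ
      rw [← h4, ← hdec]; exact h3
    have hinj : Set.InjOn flo Sγ := by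
      intro τ hτ σ hσ he
      have h3 := hpos τ hτ
      have h4 := hpos σ hσ
      rw [he] at h3
      refine Prod.ext (h1 _ _ _ h3 h4) ?_
      rw [hdec τ, hdec σ, he, (Finset.mem_filter.1 hτ).2, (Finset.mem_filter.1 hσ).2]
    let X : Cfg (Fin K) := fun a => if h : ∃ t, (t, γ + lat a) ∈ S then h.choose else Z a
    have hX : ∀ a t', (t', γ + lat a) ∈ S → X a = t' := by
      intro a t' h3
      have h4 : ∃ t, (t, γ + lat a) ∈ S := ⟨t', h3⟩
      simp only [X, dif_pos h4]
      exact h1 _ _ _ h4.choose_spec h3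
    have h3 := h (Sγ.image flo) X (by
      intro v i hv hv'
      obtain ⟨τ, hτ, rfl⟩ := Finset.mem_image.1 hv
      obtain ⟨σ, hσ, he⟩ := Finset.mem_image.1 hv'
      have h4 := hpos σ hσ
      rw [he] at h4
      rw [hX _ _ (hpos τ hτ), hX _ _ h4]
      refine h2 _ _ _ i (hpos τ hτ) ?_
      rwa [add_assoc, ← lat_add])
    rw [Finset.sum_image hinj, Finset.card_image_of_injOn hinj,
      Finset.sum_congr rfl (g := fun τ => if τ.1 = t then (1 : ℝ) else 0) (fun τ hτ => by
        simp only [sh, zero_add, hX _ _ (hpos τ hτ)]), Finset.sum_boole] at h3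
    rw [Finset.filter_comm]
    refine h3.trans (mul_le_mul_of_nonneg_left ?_ hc)
    have h4 : bd (Sγ.image flo) ≤ ((Bd S).filter fun q => key q.1 = γ).card := by
      rw [Finset.card_eq_sum_card_fiberwise (f := fun q : Tile K × Fin 3 => q.2)
        (t := Finset.univ) (fun _ _ => Finset.mem_coe.2 (Finset.mem_univ _))]
      refine Finset.sum_le_sum fun i _ => ?_
      refine le_trans (Finset.card_le_card (t := (((Bd S).filter fun q => key q.1 = γ).filter
        fun q => q.2 = i).image fun q => flo q.1) fun a ha => ?_) Finset.card_image_le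
      obtain ⟨h5, h6⟩ := Finset.mem_filter.1 ha
      obtain ⟨τ, hτ, rfl⟩ := Finset.mem_image.1 h5
      obtain ⟨h7, h8⟩ := Finset.mem_filter.1 hτ
      refine Finset.mem_image.2 ⟨(τ, i), Finset.mem_filter.2 ⟨Finset.mem_filter.2
        ⟨Finset.mem_filter.2 ⟨Finset.mem_product.2 ⟨h7, Finset.mem_univ _⟩, ?_⟩, h8⟩, rfl⟩, rfl⟩
      rintro ⟨t', h9⟩
      refine h6 (Finset.mem_image.2 ⟨_, Finset.mem_filter.2 ⟨h9, ?_⟩, ?_⟩)
      · rw [← h8]; ext j; simp [key]
      · funext j; simp [flo]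
    exact_mod_cast h4
  have hm : ∀ τ ∈ S, key τ ∈ S.image key := fun τ h => Finset.mem_image_of_mem _ h
  rw [Finset.card_eq_sum_card_fiberwise (s := S.filter fun τ => τ.1 = t) (f := key)
      (t := S.image key) (fun τ hτ => hm τ (Finset.mem_filter.1 hτ).1),
    Finset.card_eq_sum_card_fiberwise (s := Bd S) (f := fun q => key q.1)
      (t := S.image key) (fun q hq => hm _ (Finset.mem_product.1 (Finset.mem_filter.1 hq).1).1),
    Finset.card_eq_sum_card_image key S]
  push_cast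
  rw [Finset.mul_sum, Finset.mul_sum, ← Finset.sum_sub_distrib]
  exact (Finset.abs_sum_le_sum_abs _ _).trans (Finset.sum_le_sum fun γ _ => hfib γ)

/-- the open upper face of a cube -/
def oface (z : E3) (i : Fin 3) : Set E3 := slice i (z i + 1) fun j => Ioo (z j) (z j + 1)

lemma oface_sub (z : E3) (i : Fin 3) : oface z i ⊆ cub z := by
  rintro y ⟨h1, h2⟩ j
  rcases eq_or_ne j i with rfl | hj
  · rw [h1]; exact ⟨by linarith, le_rfl⟩
  · exact Ioo_subset_Icc_self (h2 j hj)

theorem area_bound {R : Fin 3 → Fin K → Fin K → Prop} {P : Set (Tile K)}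
    (hP : Packing (shp K) P) (hL : Legal (shp K) 2 (AA R) P) (S : Finset (Tile K))
    (hS : (S : Set (Tile K)) ⊆ P) :
    ((Bd S).card : ENNReal) ≤ μHE[2] (frontier (region (shp K) S)) := by
  classical
  have hreg : region (shp K) (S : Set (Tile K)) = ⋃ τ ∈ S, cub τ.2 := by
    simp only [region, supp_eq, Finset.mem_coe]
  have hcl : IsClosed (region (shp K) (S : Set (Tile K))) := by
    rw [hreg]; exact isClosed_biUnion_finset fun τ _ => closed_cub _
  have hmem : ∀ q ∈ Bd S, q.1 ∈ S := fun q hq =>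
    (Finset.mem_product.1 (Finset.mem_filter.1 hq).1).1
  have h1 : (⋃ q ∈ Bd S, oface q.1.2 q.2) ⊆ frontier (region (shp K) S) := by
    refine iUnion₂_subset fun q hq y hy => ?_
    rw [hcl.frontier_eq]
    refine ⟨by rw [hreg]; exact mem_biUnion (hmem q hq) (oface_sub _ _ hy), fun hint => ?_⟩
    obtain ⟨δ, hδ, hb⟩ := Metric.isOpen_iff.1 isOpen_interior y hint
    set ε := min (δ / 2) (1 / 2) with hε
    have hε0 : 0 < ε := lt_min (by positivity) (by norm_num)
    have hε1 : ε ≤ δ / 2 := min_le_left _ _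
    have hε2 : ε ≤ 1 / 2 := min_le_right _ _
    have hd : dist (y + ε • lat (uv q.2)) y = ε := by
      rw [dist_eq_norm, add_sub_cancel_left, norm_smul, norm_lat_uv, mul_one,
        Real.norm_of_nonneg hε0.le]
    have h2 := interior_subset (hb (show y + ε • lat (uv q.2) ∈ Metric.ball y δ by
      rw [Metric.mem_ball, hd]; linarith))
    rw [hreg] at h2
    obtain ⟨σ, hσ, h3⟩ := mem_iUnion₂.1 h2
    obtain ⟨X, a, b, v, _, h4, rfl⟩ := aligned hL (hS (hmem q hq)) (hS hσ) (oface_sub _ _ hy) h3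
      (by rw [hd]; linarith)
    have h5 : q.1.2 = lat a + v := by rw [h4]
    have h6 : a + uv q.2 = b := by
      refine eq_of_mem (fun j => ?_) h3
      obtain ⟨h7, h8⟩ := hy
      rw [h5] at h7 h8
      rcases eq_or_ne j q.2 with rfl | hj
      · simp only [PiLp.add_apply, lat_apply, PiLp.smul_apply, smul_eq_mul, mem_Ioo, h7, uv,
          Pi.add_apply, Pi.single_eq_same]
        push_cast
        constructor <;> linarith
      · simpa [uv, Pi.single_eq_of_ne hj] using h8 j hj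
    refine (Finset.mem_filter.1 hq).2 ⟨X b, ?_⟩
    rw [h5, add_right_comm, ← lat_add, h6]
    exact hσ
  refine le_trans (le_of_eq ?_) (measure_mono h1)
  have hm : ∀ z i, MeasurableSet (oface z i) := fun z i =>
    meas_slice _ _ _ fun _ => measurableSet_Ioo
  have ha : ∀ z i, μHE[2] (oface z i) = 1 := fun z i =>
    area_slice _ _ _ (fun _ => measurableSet_Ioo) (fun _ => by simp)
  rw [measure_biUnion_finset (f := fun q : Tile K × Fin 3 => oface q.1.2 q.2) ?_
    fun q _ => hm _ _]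
  · simp [ha]
  · rintro ⟨τ, i⟩ hq ⟨σ, k⟩ hq' hne
    refine disjoint_left.2 fun y h2 h3 => hne ?_
    obtain ⟨X, a, b, v, _, rfl, rfl⟩ := aligned hL (hS (hmem _ hq)) (hS (hmem _ hq'))
      (oface_sub _ _ h2) (oface_sub _ _ h3) (by simp)
    obtain ⟨h4, h5⟩ := h2
    obtain ⟨h6, h7⟩ := h3
    simp only [PiLp.add_apply, lat_apply, mem_Ioo] at h4 h5 h6 h7
    rcases eq_or_ne i k with rfl | hik
    · have : a = b := by
        funext j
        rcases eq_or_ne j i with rfl | hj
        · have : (a j : ℝ) = b j := by linarith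
          exact_mod_cast this
        · have h8 : (a j : ℝ) < b j + 1 := by linarith [(h5 j hj).1, (h7 j hj).2]
          have h9 : (b j : ℝ) < a j + 1 := by linarith [(h5 j hj).2, (h7 j hj).1]
          have h10 : a j < b j + 1 := by exact_mod_cast h8
          have h11 : b j < a j + 1 := by exact_mod_cast h9
          omega
      rw [this]
    · exfalso
      have h8 : (b i : ℝ) < a i + 1 := by linarith [(h7 i hik).1]
      have h9 : (a i : ℝ) < b i := by linarith [(h7 i hik).2]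
      have h10 : b i < a i + 1 := by exact_mod_cast h8
      have h11 : a i < b i := by exact_mod_cast h9
      omega

theorem bounded {R : Fin 3 → Fin K → Fin K → Prop} (hR : Good R) : ∃ d c : Fin K → ℝ,
    ∀ P, Packing (shp K) P → Legal (shp K) 2 (AA R) P → Bounded (shp K) d c P := by
  classical
  choose d c hc h using count_bound hR
  refine ⟨d, c, fun P hP hL S hS hfin => ?_⟩
  lift S to Finset (Tile K) using hfin
  have hreg : region (shp K) (S : Set (Tile K)) = ⋃ τ ∈ S, cub τ.2 := by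
    simp only [region, supp_eq, Finset.mem_coe]
  have hcl : IsClosed (region (shp K) (S : Set (Tile K))) := by
    rw [hreg]; exact isClosed_biUnion_finset fun τ _ => closed_cub _
  have hfr : μHE[2] (frontier (region (shp K) (S : Set (Tile K)))) < ⊤ := by
    have h1 : frontier (region (shp K) (S : Set (Tile K))) ⊆ ⋃ τ ∈ S, frontier (cub τ.2) := by
      intro y hy
      rw [hcl.frontier_eq] at hy
      obtain ⟨h1, h2⟩ := hy
      rw [hreg] at h1 h2
      obtain ⟨σ, hσ, h3⟩ := mem_iUnion₂.1 h1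
      refine mem_biUnion hσ ?_
      rw [(closed_cub _).frontier_eq]
      exact ⟨h3, fun h4 => h2 (interior_mono (subset_biUnion_of_mem (u := fun τ : Tile K =>
        cub τ.2) hσ) h4)⟩
    exact (measure_mono h1).trans_lt ((measure_biUnion_finset_le _ _).trans_lt
      (ENNReal.sum_lt_top.2 fun τ _ => frontier_cub _))
  refine ⟨hfr, fun t => ?_⟩
  have h1 : {τ ∈ P | τ.1 = t ∧ supp (shp K) τ ⊆ region (shp K) S} =
      (S.filter fun τ => τ.1 = t : Finset (Tile K)) := by
    ext τ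
    simp only [mem_ofPred_eq, Finset.coe_filter, supp_eq, hreg]
    constructor
    · rintro ⟨h1, h2, h3⟩
      obtain ⟨σ, hσ, h4⟩ := mem_iUnion₂.1 (h3 (ocub_sub _ (ctr_mem τ.2)))
      rw [eq_of_meet hP h1 (hS hσ) (ctr_mem _) h4] at h2 ⊢
      exact ⟨hσ, h2⟩
    · rintro ⟨h1, h2⟩
      exact ⟨hS h1, h2, subset_biUnion_of_mem (u := fun τ : Tile K => cub τ.2) h1⟩
  have h2 : volume (region (shp K) (S : Set (Tile K))) = S.card := by
    rw [hreg, measure_biUnion_finset₀ ?_ fun τ _ => (closed_cub _).measurableSet.nullMeasurableSet]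
    · simp [vol_cub]
    · intro τ hτ σ hσ hne
      have h3 := hP (hS hτ) (hS hσ) hne
      simp only [supp_eq, interior_cub] at h3
      exact h3.aedisjoint.congr (ocub_ae _).symm (ocub_ae _).symm
  rw [h1, ncard_coe_finset, h2, ENNReal.toReal_natCast]
  refine (h t S (fun _ _ _ h3 h4 => uniq hP (hS h3) (hS h4))
    (fun _ _ _ _ h3 h4 => adj hL (hS h3) (hS h4))).trans (mul_le_mul_of_nonneg_left ?_ (hc t))
  have h3 := ENNReal.toReal_mono hfr.ne (area_bound hP hL S hS)
  rwa [ENNReal.toReal_natCast] at h3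

theorem genB7 {K : ℕ} (R : Fin 3 → Fin K → Fin K → Prop) (h : Good R) :
    ∃ (K : ℕ) (shape : Fin K → Set E3) (r : ℝ) (𝒜 : Set (Set (Tile K))),
      (∀ t, IsProto (shape t)) ∧ 0 < r ∧ 𝒜.Finite ∧ (∀ A ∈ 𝒜, IsPatch shape A) ∧
      (∃ P, IsTiling shape P ∧ Legal shape r 𝒜 P) ∧
      (∀ P, IsTiling shape P → Legal shape r 𝒜 P → ∀ v : E3, v ≠ 0 → shift v P ≠ P) ∧
      ∃ d c : Fin K → ℝ,
        (∀ P, IsTiling shape P → Legal shape r 𝒜 P → Bounded shape d c P) ∧
        (∀ P, IsPatch shape P → Legal shape r 𝒜 P → Bounded shape d c P) := by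
  obtain ⟨d, c, hb⟩ := bounded h
  obtain ⟨X, hX⟩ := h.nonempty
  refine ⟨K, shp K, 2, AA R, fun _ => ⟨⟨_, ocub_sub _ (ctr_mem 0)⟩, compact_cub 0,
    by rw [interior_cub, closure_ocub], frontier_cub 0⟩, two_pos, AA_fin R, ?_,
    ⟨_, exists_tiling hX⟩, fun P h1 h2 => aperiodic h h1 h2, d, c,
    fun P h1 h2 => hb P h1.1 h2, fun P h1 h2 => hb P h1.2 h2⟩
  rintro _ ⟨Y, _, rfl⟩
  exact ⟨cube3.finite_toSet.image _, (packing_range Y).mono (image_subset_range _ _)⟩

end Pool.Agent.H905Z.B7
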