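import Mathlib
import Pool.Agent.H905Z.SBCGen.Core

/-! General layer, measure part: the unique invariant measure on the valid configurations. -/

set_option autoImplicit false

namespace Pool.Agent.H905Z.SBCGen

open Finset MeasureTheory Filter Topology Pool.Agent.H247Z.SBC

variable {K : ℕ}

lemma meas_sh (v : Pt) : Measurable (sh v : Cfg (Fin K) → Cfg (Fin K)) :=
  measurable_pi_lambda _ fun _ => measurable_pi_apply _

lemma loc_meas {f : Cfg (Fin K) → ℝ} (hf : Local f) : Measurable f := (loc_cont hf).measurable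

lemma loc_int {f : Cfg (Fin K) → ℝ} (hf : Local f) (μ : Measure (Cfg (Fin K)))
    [IsFiniteMeasure μ] : Integrable f μ := by
  obtain ⟨M, _, hM⟩ := loc_bdd hf
  exact Integrable.of_bound (loc_meas hf).aestronglyMeasurable M (ae_of_all _ hM)

lemma ext_local {μ ν : Measure (Cfg (Fin K))} [IsProbabilityMeasure μ] [IsProbabilityMeasure ν]
    (h : ∀ f, Local f → ∫ X, f X ∂μ = ∫ X, f X ∂ν) : μ = ν := by
  refine ext_of_generate_finite (measurableCylinders fun _ : Pt => Fin K)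
    generateFrom_measurableCylinders.symm isPiSystem_measurableCylinders (fun s hs => ?_) (by simp)
  have hm : MeasurableSet s := MeasurableSet.of_mem_measurableCylinders hs
  obtain ⟨D, S, _, rfl⟩ := (mem_measurableCylinders _).1 hs
  have hl : Local ((cylinder D S).indicator (1 : Cfg (Fin K) → ℝ)) := by
    refine ⟨D, fun X Y hXY => ?_⟩
    have : D.restrict X = D.restrict Y := funext fun i => hXY i i.2
    have h2 : X ∈ cylinder D S ↔ Y ∈ cylinder D S := by
      rw [mem_cylinder, mem_cylinder, this]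
    by_cases h3 : X ∈ cylinder D S
    · rw [Set.indicator_of_mem h3, Set.indicator_of_mem (h2.1 h3)]; rfl
    · rw [Set.indicator_of_notMem h3, Set.indicator_of_notMem (fun h4 => h3 (h2.2 h4))]
  have := h _ hl
  rw [integral_indicator_one hm, integral_indicator_one hm] at this
  exact (measureReal_eq_measureReal_iff (measure_ne_top _ _) (measure_ne_top _ _)).1 this

lemma int_sh {μ : Measure (Cfg (Fin K))} (hμ : ∀ a, μ.map (sh a) = μ) {f : Cfg (Fin K) → ℝ}
    (hf : Local f) (a : Pt) : ∫ X, f (sh a X) ∂μ = ∫ X, f X ∂μ := by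
  rw [← integral_map (meas_sh a).aemeasurable (loc_meas hf).aestronglyMeasurable, hμ]

lemma nonpos_of_bd {e C : ℝ} (hC : 0 ≤ C) (h : ∀ T : Finset Pt, e * T.card ≤ C * bd T) :
    e ≤ 0 := by
  refine le_of_forall_pos_le_add fun ε hε => ?_
  obtain ⟨n, hn⟩ := exists_nat_gt (3 * C / ε)
  have h1 := (h (box n)).trans (ratio_box C hC n)
  have h2 : (0 : ℝ) < (box n).card := by rw [card_box]; positivity
  have h3 := le_of_mul_le_mul_right h1 h2
  rw [div_lt_iff₀ hε] at hn
  refine h3.trans ?_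
  rw [div_le_iff₀ (by positivity)]
  nlinarith

lemma int_const {R : Fin 3 → Fin K → Fin K → Prop} (hR : Good R) {f : Cfg (Fin K) → ℝ}
    (hf : Local f) : ∃ c, ∀ μ : Measure (Cfg (Fin K)), IsProbabilityMeasure μ →
      (∀ᵐ X ∂μ, Valid R X) → (∀ a, μ.map (sh a) = μ) → ∫ X, f X ∂μ = c := by
  obtain ⟨c, C, hC, h⟩ := disc hR hf
  refine ⟨c, fun μ _ h1 h2 => ?_⟩
  have key : ∀ T : Finset Pt, |∫ X, f X ∂μ - c| * T.card ≤ C * bd T := by
    intro T
    have h3 : ∫ X, (∑ a ∈ T, f (sh a X) - c * T.card) ∂μ = (∫ X, f X ∂μ - c) * T.card := by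
      rw [integral_sub (integrable_finsetSum _ fun a _ => loc_int (loc_sh hf a) μ)
        (integrable_const _), integral_finsetSum _ fun a _ => loc_int (loc_sh hf a) μ]
      simp only [int_sh h2 hf, sum_const, nsmul_eq_mul, integral_const, probReal_univ, smul_eq_mul]
      ring
    have h4 := norm_integral_le_of_norm_le_const (μ := μ)
      (f := fun X => ∑ a ∈ T, f (sh a X) - c * T.card) (C := C * bd T)
      (by filter_upwards [h1] with X hX using h T X fun v i _ _ => hX v i)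
    rw [h3, Real.norm_eq_abs, abs_mul, Nat.abs_cast, probReal_univ, mul_one] at h4
    exact h4
  have := nonpos_of_bd hC key
  exact sub_eq_zero.1 (abs_nonpos_iff.1 this)

theorem unique_meas {R : Fin 3 → Fin K → Fin K → Prop} (hR : Good R)
    {μ ν : Measure (Cfg (Fin K))} [IsProbabilityMeasure μ] [IsProbabilityMeasure ν]
    (h1 : ∀ᵐ X ∂μ, Valid R X) (h2 : ∀ a, μ.map (sh a) = μ)
    (h3 : ∀ᵐ X ∂ν, Valid R X) (h4 : ∀ a, ν.map (sh a) = ν) : μ = ν := by
  refine ext_local fun f hf => ?_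
  obtain ⟨c, hc⟩ := int_const hR hf
  rw [hc μ inferInstance h1 h2, hc ν inferInstance h3 h4]

/-- empirical measure along a box -/
noncomputable def emp (X : Cfg (Fin K)) (n : ℕ) : ProbabilityMeasure (Cfg (Fin K)) :=
  ⟨((box n).card : ENNReal)⁻¹ • ∑ a ∈ box n, Measure.dirac (sh a X), ⟨by
    have : ((box n).card : ENNReal) ≠ 0 := by rw [card_box]; simp
    simp only [Measure.smul_apply, Measure.coe_finsetSum, Finset.sum_apply, measure_univ,
      Finset.sum_const, nsmul_eq_mul, mul_one, smul_eq_mul]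
    exact ENNReal.inv_mul_cancel this (by simp)⟩⟩

lemma int_emp (X : Cfg (Fin K)) (n : ℕ) {f : Cfg (Fin K) → ℝ} (hf : Local f) :
    ∫ Y, f Y ∂(emp X n : Measure (Cfg (Fin K))) =
      ((box n).card : ℝ)⁻¹ * ∑ a ∈ box n, f (sh a X) := by
  change ∫ Y, f Y ∂(((box n).card : ENNReal)⁻¹ • ∑ a ∈ box n, Measure.dirac (sh a X)) = _
  rw [integral_smul_measure, integral_finsetSum_measure fun a _ => loc_int hf _]
  simp [integral_dirac]

lemma ae_valid_of {R : Fin 3 → Fin K → Fin K → Prop} {μ : Measure (Cfg (Fin K))}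
    (h : ∀ q, μ {X | Brk R X q} = 0) : ∀ᵐ X ∂μ, Valid R X := by
  have : ∀ᵐ X ∂μ, ∀ q, ¬ Brk R X q :=
    ae_all_iff.2 fun q => by rw [ae_iff]; simpa using h q
  filter_upwards [this] with X hX v i using not_not.1 (hX (v, i))

open Classical in
lemma null_of_int {R : Fin 3 → Fin K → Fin K → Prop} {μ : Measure (Cfg (Fin K))}
    [IsFiniteMeasure μ] (q : Pt × Fin 3)
    (h : ∫ X, (if Brk R X q then (1 : ℝ) else 0) ∂μ = 0) : μ {X | Brk R X q} = 0 := by
  have h1 : (fun X => if Brk R X q then (1 : ℝ) else 0) =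
      Set.indicator {X | Brk R X q} (1 : Cfg (Fin K) → ℝ) := by
    funext X
    by_cases h : Brk R X q <;> simp [h]
  rw [h1, integral_indicator_one (open_brk R q).measurableSet] at h
  exact (measureReal_eq_zero_iff (measure_ne_top _ _)).1 h

theorem exists_meas {R : Fin 3 → Fin K → Fin K → Prop} (hR : Good R) :
    ∃ μ : Measure (Cfg (Fin K)), IsProbabilityMeasure μ ∧ (∀ᵐ X ∂μ, Valid R X) ∧
      ∀ a, μ.map (sh a) = μ := by
  classical
  obtain ⟨X, hX⟩ := hR.nonempty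
  set U : Ultrafilter ℕ := hyperfilter ℕ with hU
  have hUtop : (U : Filter ℕ) ≤ atTop := Nat.hyperfilter_le_atTop
  obtain ⟨μ, hμ⟩ : ∃ μ : ProbabilityMeasure (Cfg (Fin K)), Tendsto (emp X) U (𝓝 μ) :=
    ⟨_, (U.map (emp X)).le_nhds_lim⟩
  rw [ProbabilityMeasure.tendsto_iff_forall_integral_tendsto] at hμ
  have key : ∀ f, Local f → ∀ C : ℝ, 0 ≤ C → (∀ T : Finset Pt,
      |∑ a ∈ T, f (sh a X)| ≤ C * bd T) → ∫ Y, f Y ∂(μ : Measure (Cfg (Fin K))) = 0 := by
    intro f hf C hC h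
    have h1 := hμ (BoundedContinuousFunction.mkOfCompact ⟨f, loc_cont hf⟩)
    simp only [BoundedContinuousFunction.mkOfCompact_apply, ContinuousMap.coe_mk,
      int_emp X _ hf] at h1
    refine tendsto_nhds_unique h1 (Tendsto.mono_left ?_ hUtop)
    have h2 : Tendsto (fun n : ℕ => 3 * C / ((n : ℝ) + 1)) atTop (𝓝 0) :=
      tendsto_const_nhds.div_atTop (tendsto_natCast_atTop_atTop.atTop_add tendsto_const_nhds)
    refine squeeze_zero_norm (fun n => ?_) h2
    have h3 : (0 : ℝ) < (box n).card := by rw [card_box]; positivity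
    rw [Real.norm_eq_abs, abs_mul, abs_inv, Nat.abs_cast, inv_mul_le_iff₀ h3, mul_comm]
    exact (h _).trans (ratio_box C hC n)
  refine ⟨μ, inferInstance, ae_valid_of fun q => null_of_int q ?_, fun a => ?_⟩
  · refine key _ (loc_brk R q) 0 le_rfl fun T => ?_
    have : ∀ a, ¬ Brk R (sh a X) q := fun a h => h (valid_sh hX a _ _)
    simp [this]
  · have : IsProbabilityMeasure ((μ : Measure (Cfg (Fin K))).map (sh a)) :=
      Measure.isProbabilityMeasure_map (meas_sh a).aemeasurable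
    refine ext_local fun f hf => ?_
    obtain ⟨C, hC, h⟩ := (PC.base f hf a).sum_le
    have h1 := key _ (PC.base f hf a).loc C hC fun T => h T X
    rw [integral_sub (loc_int (loc_sh hf a) _) (loc_int hf _)] at h1
    rw [integral_map (meas_sh a).aemeasurable (loc_meas hf).aestronglyMeasurable]
    linarith

lemma shift_eq (a : Pt) :
    (fun X : Cfg (Fin K) => fun i => X (i - a)) = sh (-a) := by
  funext X i
  simp [sh, sub_eq_add_neg]

lemma inv_iff (μ : Measure (Cfg (Fin K))) :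
    (∀ a : Pt, μ.map (fun X : Cfg (Fin K) => fun i => X (i - a)) = μ) ↔ ∀ a, μ.map (sh a) = μ := by
  simp only [shift_eq]
  exact ⟨fun h a => by simpa using h (-a), fun h a => h _⟩

lemma finsum_ind {ι : Type} (S : Set ι) (hS : S.Finite) [DecidablePred (· ∈ S)] :
    ∑ᶠ a, (if a ∈ S then (1 : ℝ) else 0) = S.ncard := by
  rw [finsum_eq_sum_of_support_subset (s := hS.toFinset) _ (fun a ha => by simpa using ha),
    Set.ncard_eq_toFinset_card S hS, sum_congr rfl (g := fun _ => (1 : ℝ))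
      fun a ha => if_pos (by simpa using ha)]
  simp

lemma uv_ne (i : Fin 3) : uv i ≠ 0 := by
  intro h
  have := congrFun h i
  simp [uv] at this

theorem gen15791 {K : ℕ} (R : Fin 3 → Fin K → Fin K → Prop) (h : Good R) :
  ∃ d : ℕ, 2 ≤ d ∧ ∃ k m : ℕ, ∃ F : Fin m → Finset (Fin d → ℤ) × ((Fin d → ℤ) → Fin k),
    (∃ X : (Fin d → ℤ) → Fin k, ∀ j : Fin m, ∀ a : Fin d → ℤ,
        ¬ ∀ i ∈ (F j).1, X (i + a) = (F j).2 i) ∧
    (∀ X : (Fin d → ℤ) → Fin k,
        (∀ j : Fin m, ∀ a : Fin d → ℤ, ¬ ∀ i ∈ (F j).1, X (i + a) = (F j).2 i) →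
        ∀ a : Fin d → ℤ, a ≠ 0 → (fun i => X (i - a)) ≠ X) ∧
    (∃! μ : MeasureTheory.Measure ((Fin d → ℤ) → Fin k),
        MeasureTheory.IsProbabilityMeasure μ ∧
        μ {X : (Fin d → ℤ) → Fin k | ∀ j : Fin m, ∀ a : Fin d → ℤ,
            ¬ ∀ i ∈ (F j).1, X (i + a) = (F j).2 i}ᶜ = 0 ∧
        ∀ a : Fin d → ℤ,
          MeasureTheory.Measure.map (fun X : (Fin d → ℤ) → Fin k => fun i => X (i - a)) μ = μ) ∧
    ∀ DA : Finset (Fin d → ℤ), ∀ pA : (Fin d → ℤ) → Fin k, ∃ C : ℝ,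
      ∀ X Y : (Fin d → ℤ) → Fin k,
        (∀ j : Fin m, ∀ a : Fin d → ℤ, ¬ ∀ i ∈ (F j).1, X (i + a) = (F j).2 i) →
        {i : Fin d → ℤ | Y i ≠ X i}.Finite →
        |((((Set.ncard {a : Fin d → ℤ | (∀ i ∈ DA, Y (i + a) = pA i) ∧
                ¬ ∀ i ∈ DA, X (i + a) = pA i} : ℕ) : ℤ) -
            ((Set.ncard {a : Fin d → ℤ | (∀ i ∈ DA, X (i + a) = pA i) ∧
                ¬ ∀ i ∈ DA, Y (i + a) = pA i} : ℕ) : ℤ) : ℤ) : ℝ)|
          ≤ C * ((Set.ncard {q : Fin m × (Fin d → ℤ) |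
                  ∀ i ∈ (F q.1).1, Y (i + q.2) = (F q.1).2 i} : ℕ) : ℝ) := by
  classical
  let T := {q : Fin 3 × Fin K × Fin K // ¬ R q.1 q.2.1 q.2.2}
  let e := Fintype.equivFin T
  let F : Fin (Fintype.card T) → Finset Pt × (Pt → Fin K) := fun j =>
    ({0, uv (e.symm j).1.1}, fun p => if p = 0 then (e.symm j).1.2.1 else (e.symm j).1.2.2)
  have hocc : ∀ (X : Cfg (Fin K)) j a, (∀ i ∈ (F j).1, X (i + a) = (F j).2 i) ↔
      X a = (e.symm j).1.2.1 ∧ X (a + uv (e.symm j).1.1) = (e.symm j).1.2.2 := by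
    intro X j a
    simp [F, uv_ne, add_comm]
  have hval : ∀ X : Cfg (Fin K),
      (∀ j a, ¬ ∀ i ∈ (F j).1, X (i + a) = (F j).2 i) ↔ Valid R X := by
    intro X
    simp only [hocc]
    constructor
    · intro h1 v i
      by_contra hne
      exact h1 (e ⟨(i, X v, X (v + uv i)), hne⟩) v (by simp)
    · rintro h1 j a ⟨h2, h3⟩
      apply (e.symm j).2
      rw [← h2, ← h3]
      exact h1 _ _
  refine ⟨3, by norm_num, K, Fintype.card T, F, ?_, ?_, ?_, ?_⟩
  · simp only [hval]; exact h.nonempty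
  · intro X hX a ha
    rw [hval] at hX
    have := h.aperiodic X hX (-a) (neg_ne_zero.2 ha)
    rwa [← shift_eq] at this
  · simp only [hval, inv_iff]
    obtain ⟨μ, h1, h2, h3⟩ := exists_meas h
    refine ⟨μ, ⟨h1, h2, h3⟩, ?_⟩
    rintro ν ⟨h4, h5, h6⟩
    exact unique_meas h h5 h6 h2 h3
  · intro DA pA
    have hf : Local (fun X : Cfg (Fin K) => if ∀ i ∈ DA, X i = pA i then (1 : ℝ) else 0) := by
      refine ⟨DA, fun X Y hXY => ?_⟩
      have : (∀ i ∈ DA, X i = pA i) ↔ ∀ i ∈ DA, Y i = pA i :=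
        forall₂_congr fun i hi => by rw [hXY i hi]
      simp only [this]
    obtain ⟨C, hC0, hC⟩ := sbc h hf
    refine ⟨C, fun X Y hX hfin => ?_⟩
    rw [hval] at hX
    have h1 := hC X Y hX hfin
    have hs := fin_supp hf hfin
    set A := {a : Pt | (∀ i ∈ DA, Y (i + a) = pA i) ∧ ¬ ∀ i ∈ DA, X (i + a) = pA i} with hA
    set B := {a : Pt | (∀ i ∈ DA, X (i + a) = pA i) ∧ ¬ ∀ i ∈ DA, Y (i + a) = pA i} with hB
    have hAf : A.Finite := hs.subset fun a ha => by
      simp only [Function.mem_support, sh]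
      rw [if_pos ha.1, if_neg ha.2]; norm_num
    have hBf : B.Finite := hs.subset fun a ha => by
      simp only [Function.mem_support, sh]
      rw [if_pos ha.1, if_neg ha.2]; norm_num
    have h2 : ∀ a, ((if ∀ i ∈ DA, sh a Y i = pA i then (1 : ℝ) else 0) -
        (if ∀ i ∈ DA, sh a X i = pA i then (1 : ℝ) else 0)) =
        (if a ∈ A then 1 else 0) - (if a ∈ B then 1 else 0) := by
      intro a
      simp only [hA, hB, sh, Set.mem_ofPred_eq]
      by_cases h3 : ∀ i ∈ DA, Y (i + a) = pA i <;> by_cases h4 : ∀ i ∈ DA, X (i + a) = pA i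
      · rw [if_pos h3, if_pos h4, if_neg (fun h => h.2 h4), if_neg (fun h => h.2 h3)]; simp
      · rw [if_pos h3, if_neg h4, if_pos ⟨h3, h4⟩, if_neg (fun h => h.2 h3)]
      · rw [if_neg h3, if_pos h4, if_neg (fun h => h.2 h4), if_pos ⟨h4, h3⟩]
      · rw [if_neg h3, if_neg h4, if_neg (fun h => h3 h.1), if_neg (fun h => h4 h.1)]
    simp only [h2] at h1
    rw [finsum_sub_distrib (hAf.subset fun a ha => by simpa using ha)
      (hBf.subset fun a ha => by simpa using ha), finsum_ind A hAf, finsum_ind B hBf] at h1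
    have h3 : Set.ncard {q : Fin (Fintype.card T) × Pt |
        ∀ i ∈ (F q.1).1, Y (i + q.2) = (F q.1).2 i} = {q | Brk R Y q}.ncard := by
      simp only [hocc]
      refine Set.ncard_congr (fun q _ => (q.2, (e.symm q.1).1.1)) ?_ ?_ ?_
      · rintro ⟨j, a⟩ ⟨h2, h3⟩
        have := (e.symm j).2
        change ¬ R _ (Y a) (Y (a + uv _))
        rw [h2, h3]; exact this
      · rintro ⟨j, a⟩ ⟨j', a'⟩ ⟨h2, h3⟩ ⟨h4, h5⟩ h6
        simp only [Prod.mk.injEq] at h6 h2 h3 h4 h5 ⊢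
        obtain ⟨rfl, h7⟩ := h6
        refine ⟨e.symm.injective (Subtype.ext (Prod.ext h7 (Prod.ext ?_ ?_))), rfl⟩
        · rw [← h2, h4]
        · rw [← h3, ← h5, h7]
      · rintro ⟨v, i⟩ hq
        exact ⟨(e ⟨(i, Y v, Y (v + uv i)), hq⟩, v), by simp, by simp⟩
    rw [h3]
    push_cast
    exact h1

end Pool.Agent.H905Z.SBCGen
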