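import Mathlib
import Pool.Agent.H905Z.SBCGen.Meas

/-! General layer: the lattice gas whose energy counts broken bonds. -/

set_option autoImplicit false

namespace Pool.Agent.H905Z.SBCGen

open Finset MeasureTheory Filter Topology Pool.Agent.H247Z.SBC

variable {K : ℕ}

noncomputable def cube (r : ℕ) : Finset Pt := Fintype.piFinset fun _ => Icc (-(r : ℤ)) r

noncomputable def LL (r : ℕ) : Finset (Finset Pt) := (cube r).powerset.filter (0 ∈ ·)

/-- energy per site -/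
noncomputable def dens (Φ : Finset Pt → Cfg (Fin K) → ℝ) (r : ℕ) (X : Cfg (Fin K)) : ℝ :=
  ∑ Λ ∈ LL r, Φ Λ X / Λ.card

lemma loc_dens {Φ : Finset Pt → Cfg (Fin K) → ℝ}
    (h1 : ∀ (Λ : Finset Pt) (X Y : Cfg (Fin K)), (∀ i ∈ Λ, X i = Y i) → Φ Λ X = Φ Λ Y) (r : ℕ) :
    Local (dens Φ r) := by
  refine ⟨cube r, fun X Y h => sum_congr rfl fun Λ hΛ => ?_⟩
  rw [h1 Λ X Y fun i hi => h i (mem_powerset.1 (mem_filter.1 hΛ).1 hi)]

theorem energy {Φ : Finset Pt → Cfg (Fin K) → ℝ} {r : ℕ}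
    (h1 : ∀ (Λ : Finset Pt) (X Y : Cfg (Fin K)), (∀ i ∈ Λ, X i = Y i) → Φ Λ X = Φ Λ Y)
    (h2 : ∀ (Λ : Finset Pt) (X : Cfg (Fin K)) (a : Pt),
      Φ (Λ.image (fun i => i + a)) (fun i => X (i - a)) = Φ Λ X)
    (h3 : ∀ Λ : Finset Pt, (∃ i ∈ Λ, ∃ j ∈ Λ, ∃ k : Fin 3, (r : ℤ) < |i k - j k|) →
      ∀ X : Cfg (Fin K), Φ Λ X = 0)
    {X Y : Cfg (Fin K)} (hfin : {i | Y i ≠ X i}.Finite) :
    (Function.support fun Λ => Φ Λ Y - Φ Λ X).Finite ∧
      ∑ᶠ Λ, (Φ Λ Y - Φ Λ X) = ∑ᶠ a, (dens Φ r (sh a Y) - dens Φ r (sh a X)) := by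
  classical
  have htr : ∀ (Λ : Finset Pt) (Z : Cfg (Fin K)) (a : Pt),
      Φ Λ (sh a Z) = Φ (Λ.image (· + a)) Z := by
    intro Λ Z a
    rw [← h2 Λ (sh a Z) a]
    congr 1
    funext i
    simp [sh]
  set W := (hfin.toFinset ×ˢ cube r).image fun q => q.1 + q.2 with hW
  have hdiam : ∀ Λ, Φ Λ Y - Φ Λ X ≠ 0 → ∀ i ∈ Λ, ∀ j ∈ Λ, j - i ∈ cube r := by
    intro Λ hΛ i hi j hj
    refine Fintype.mem_piFinset.2 fun k => mem_Icc.2 (abs_le.1 (not_lt.1 fun hlt => hΛ ?_))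
    rw [h3 Λ ⟨j, hj, i, hi, k, hlt⟩, h3 Λ ⟨j, hj, i, hi, k, hlt⟩, sub_self]
  have hsub : ∀ Λ, Φ Λ Y - Φ Λ X ≠ 0 → Λ ∈ W.powerset := by
    intro Λ hΛ
    have : ∃ i ∈ Λ, Y i ≠ X i := by
      by_contra hcon
      push Not at hcon
      exact hΛ (by rw [h1 Λ Y X hcon, sub_self])
    obtain ⟨i, hi, hne⟩ := this
    refine mem_powerset.2 fun j hj => mem_image.2 ⟨(i, j - i), mem_product.2
      ⟨by simpa using hne, hdiam Λ hΛ i hi j hj⟩, by simp⟩
  have hG : ∀ a, dens Φ r (sh a Y) - dens Φ r (sh a X) =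
      ∑ Λ ∈ W.powerset, if a ∈ Λ then (Φ Λ Y - Φ Λ X) / Λ.card else 0 := by
    intro a
    rw [dens, dens, ← sum_sub_distrib]
    simp only [← sub_div, htr]
    refine sum_bij_ne_zero (fun Λ _ _ => Λ.image (· + a)) (fun Λ _ hne => hsub _ ?_)
      (fun Λ _ _ Λ' _ _ h => image_injective (add_left_injective a) h) (fun Λ _ hne => ?_)
      (fun Λ hΛ _ => ?_)
    · intro h0; exact hne (by rw [h0, zero_div])
    · have ha : a ∈ Λ := by
        by_contra hcon; exact hne (if_neg hcon)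
      rw [if_pos ha] at hne
      have hne' : Φ Λ Y - Φ Λ X ≠ 0 := fun h0 => hne (by rw [h0, zero_div])
      have him : (Λ.image (· - a)).image (· + a) = Λ := by
        rw [image_image]; simp [Function.comp_def]
      refine ⟨Λ.image (· - a), mem_filter.2 ⟨mem_powerset.2 fun j hj => ?_,
        mem_image.2 ⟨a, ha, sub_self a⟩⟩, ?_, him⟩
      · obtain ⟨i, hi, rfl⟩ := mem_image.1 hj
        exact hdiam Λ hne' a ha i hi
      · rw [him, card_image_of_injective _ (sub_left_injective)]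
        exact hne
    · rw [if_pos (mem_image.2 ⟨0, (mem_filter.1 hΛ).2, zero_add a⟩),
        card_image_of_injective _ (add_left_injective a)]
  refine ⟨W.powerset.finite_toSet.subset fun Λ hΛ => hsub Λ hΛ, ?_⟩
  simp only [hG]
  rw [finsum_eq_sum_of_support_subset (s := W.powerset) _ (fun Λ hΛ => hsub Λ hΛ),
    finsum_eq_sum_of_support_subset (s := W) _ ?_, sum_comm]
  · refine sum_congr rfl fun Λ hΛ => ?_
    rw [sum_ite_mem, inter_eq_right.2 (mem_powerset.1 hΛ), sum_const, nsmul_eq_mul]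
    rcases Λ.eq_empty_or_nonempty with rfl | hne
    · rw [h1 ∅ Y X (by simp)]; simp
    · have : (Λ.card : ℝ) ≠ 0 := by exact_mod_cast hne.card_pos.ne'
      field_simp
  · intro a ha
    by_contra hcon
    exact ha (sum_eq_zero fun Λ hΛ => if_neg fun h => hcon (mem_powerset.1 hΛ h))

theorem paste {f : Cfg (Fin K) → ℝ} (hf : Local f) : ∃ C : ℝ, 0 ≤ C ∧
    ∀ (T : Finset Pt) (X Z : Cfg (Fin K)),
      ∑ᶠ a, (f (sh a (T.piecewise Z X)) - f (sh a X)) ≤
        ∑ a ∈ T, (f (sh a Z) - f (sh a X)) + C * bd T := by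
  classical
  obtain ⟨M, hM0, hM⟩ := loc_bdd hf
  obtain ⟨D, hD⟩ := hf
  obtain ⟨C, hC⟩ := out_set D
  obtain ⟨C', hC'⟩ : ∃ C' : ℕ, ∀ T : Finset Pt, (D.biUnion fun w =>
      (T.filter fun b => b + -w ∉ T).image (· - w)).card ≤ C' * bd T := by
    choose C hC using out_le
    refine ⟨∑ w ∈ D, C (-w), fun T => card_biUnion_le.trans ?_⟩
    rw [sum_mul]
    exact sum_le_sum fun w _ => card_image_le.trans (hC (-w) T)
  refine ⟨2 * M * (C + C'), by positivity, fun T X Z => ?_⟩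
  set S := (T.filter fun a => ∃ w ∈ D, w + a ∉ T) ∪
    D.biUnion fun w => (T.filter fun b => b + -w ∉ T).image (· - w) with hS
  set ψ : Pt → ℝ := fun a => f (sh a (T.piecewise Z X)) -
    (if a ∈ T then f (sh a Z) else f (sh a X)) with hψ
  have h1 : ∀ a, ψ a ≠ 0 → a ∈ (S : Set Pt) := by
    intro a ha
    by_contra hcon
    apply ha
    simp only [hS, coe_union, Set.mem_union, mem_coe, not_or, mem_filter, mem_biUnion,
      mem_image] at hcon
    simp only [hψ]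
    split_ifs with haT
    · rw [hD _ (sh a Z) fun i hi => ?_, sub_self]
      have : i + a ∈ T := by
        by_contra h; exact hcon.1 ⟨haT, i, hi, h⟩
      simp [sh, this]
    · rw [hD _ (sh a X) fun i hi => ?_, sub_self]
      have : i + a ∉ T := fun h => hcon.2 ⟨i, hi, i + a, ⟨h, by simpa using haT⟩, by simp⟩
      simp [sh, this]
  have h2 := abs_finsum_le ψ S S.finite_toSet (2 * M) (fun a => by
    simp only [hψ]
    refine (abs_sub _ _).trans ?_
    have := hM (sh a (T.piecewise Z X))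
    have := hM (sh a Z)
    have := hM (sh a X)
    split_ifs <;> linarith) h1
  rw [Set.ncard_coe_finset] at h2
  have h3 : (S.card : ℝ) ≤ (C + C') * bd T := by
    have := (card_union_le _ _).trans (add_le_add (hC T) (hC' T))
    rw [← add_mul] at this
    exact_mod_cast this
  have h4 : ∀ a, f (sh a (T.piecewise Z X)) - f (sh a X) =
      ψ a + if a ∈ T then f (sh a Z) - f (sh a X) else 0 := by
    intro a
    simp only [hψ]
    split_ifs <;> ring
  simp only [h4]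
  have h5 : (Function.support fun a => if a ∈ T then f (sh a Z) - f (sh a X) else 0) ⊆ T := by
    intro a ha
    by_contra hcon
    exact ha (if_neg hcon)
  rw [finsum_add_distrib (S.finite_toSet.subset h1) (T.finite_toSet.subset h5),
    finsum_eq_sum_of_support_subset _ h5, sum_congr rfl fun a ha => if_pos ha]
  have h6 := mul_le_mul_of_nonneg_left h3 (by positivity : 0 ≤ 2 * M)
  have h7 := le_abs_self (∑ᶠ a, ψ a)
  nlinarith

open Classical in
/-- one unit of energy for each broken bond -/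
noncomputable def Phi (R : Fin 3 → Fin K → Fin K → Prop) (Λ : Finset Pt) (X : Cfg (Fin K)) : ℝ :=
  if ∃ q : Pt × Fin 3, Λ = {q.1, q.1 + uv q.2} ∧ Brk R X q then 1 else 0

lemma Phi_nonneg (R : Fin 3 → Fin K → Fin K → Prop) (Λ : Finset Pt) (X : Cfg (Fin K)) :
    0 ≤ Phi R Λ X := by
  unfold Phi; split_ifs <;> norm_num

lemma Phi_valid {R : Fin 3 → Fin K → Fin K → Prop} {X : Cfg (Fin K)} (h : Valid R X)
    (Λ : Finset Pt) : Phi R Λ X = 0 :=
  if_neg fun ⟨_, _, hq⟩ => hq (h _ _)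

lemma Phi_loc (R : Fin 3 → Fin K → Fin K → Prop) (Λ : Finset Pt) (X Y : Cfg (Fin K))
    (h : ∀ i ∈ Λ, X i = Y i) : Phi R Λ X = Phi R Λ Y := by
  have : (∃ q : Pt × Fin 3, Λ = {q.1, q.1 + uv q.2} ∧ Brk R X q) ↔
      ∃ q : Pt × Fin 3, Λ = {q.1, q.1 + uv q.2} ∧ Brk R Y q := by
    refine exists_congr fun q => and_congr_right fun hq => ?_
    simp only [Brk]
    rw [h q.1 (by simp [hq]), h (q.1 + uv q.2) (by simp [hq])]
  unfold Phi
  by_cases h0 : ∃ q : Pt × Fin 3, Λ = {q.1, q.1 + uv q.2} ∧ Brk R X q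
  · first
      | rw [if_pos h0, if_pos (this.1 h0)]
      | rw [if_pos h0, if_pos (this.2 h0)]
  · first
      | rw [if_neg h0, if_neg (fun h1 => h0 (this.2 h1))]
      | rw [if_neg h0, if_neg (fun h1 => h0 (this.1 h1))]

lemma Phi_inv (R : Fin 3 → Fin K → Fin K → Prop) (Λ : Finset Pt) (X : Cfg (Fin K)) (a : Pt) :
    Phi R (Λ.image (fun i => i + a)) (fun i => X (i - a)) = Phi R Λ X := by
  have : (∃ q : Pt × Fin 3, Λ.image (fun i => i + a) = {q.1, q.1 + uv q.2} ∧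
      Brk R (fun i => X (i - a)) q) ↔
      ∃ q : Pt × Fin 3, Λ = {q.1, q.1 + uv q.2} ∧ Brk R X q := by
    constructor
    · rintro ⟨q, h1, h2⟩
      refine ⟨(q.1 - a, q.2), image_injective (add_left_injective a) ?_, ?_⟩
      · rw [h1]; simp [add_right_comm]
      · simp only [Brk] at h2 ⊢
        rwa [add_sub_right_comm] at h2
    · rintro ⟨q, h1, h2⟩
      refine ⟨(q.1 + a, q.2), by rw [h1]; simp [add_right_comm], ?_⟩
      simp only [Brk] at h2 ⊢
      rw [add_right_comm]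
      simpa using h2
  unfold Phi
  by_cases h0 : ∃ q : Pt × Fin 3, Λ = {q.1, q.1 + uv q.2} ∧ Brk R X q
  · first
      | rw [if_pos h0, if_pos (this.1 h0)]
      | rw [if_pos h0, if_pos (this.2 h0)]
  · first
      | rw [if_neg h0, if_neg (fun h1 => h0 (this.2 h1))]
      | rw [if_neg h0, if_neg (fun h1 => h0 (this.1 h1))]

lemma Phi_range (R : Fin 3 → Fin K → Fin K → Prop) (Λ : Finset Pt)
    (h : ∃ i ∈ Λ, ∃ j ∈ Λ, ∃ k : Fin 3, ((1 : ℕ) : ℤ) < |i k - j k|) (X : Cfg (Fin K)) :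
    Phi R Λ X = 0 := by
  refine if_neg ?_
  rintro ⟨q, rfl, _⟩
  obtain ⟨i, hi, j, hj, k, hk⟩ := h
  have : uv q.2 k = 0 ∨ uv q.2 k = 1 := by
    simp only [uv, Pi.single_apply]; split_ifs <;> simp
  simp only [mem_insert, mem_singleton] at hi hj
  rcases hi with rfl | rfl <;> rcases hj with rfl | rfl <;> rcases this with h | h <;>
    simp [h] at hk

lemma bond_inj : Function.Injective fun q : Pt × Fin 3 => ({q.1, q.1 + uv q.2} : Finset Pt) := by
  rintro ⟨v, i⟩ ⟨w, j⟩ h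
  have h1 : v ∈ ({w, w + uv j} : Finset Pt) := by
    have : ({w, w + uv j} : Finset Pt) = {v, v + uv i} := h.symm
    rw [this]; simp
  have h2 : v + uv i ∈ ({w, w + uv j} : Finset Pt) := by
    have : ({w, w + uv j} : Finset Pt) = {v, v + uv i} := h.symm
    rw [this]; simp
  have h3 : w ∈ ({v, v + uv i} : Finset Pt) := by
    have : ({v, v + uv i} : Finset Pt) = {w, w + uv j} := h
    rw [this]; simp
  simp only [mem_insert, mem_singleton] at h1 h2 h3
  have hinj : uv i = uv j → i = j := by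
    intro h
    by_contra hne
    have := congrFun h i
    simp [uv, Pi.single_eq_of_ne hne] at this
  rcases h1 with rfl | h1
  · rcases h2 with h2 | h2
    · exact absurd (by simpa using h2) (uv_ne i)
    · rw [hinj (add_left_cancel h2)]
  · exfalso
    rcases h3 with h3 | h3
    · rw [h3] at h1; exact uv_ne j (by simpa using h1)
    · rw [h1] at h3
      have h4 := congrFun h3 i
      have : 0 ≤ uv j i := by simp only [uv, Pi.single_apply]; split_ifs <;> simp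
      simp only [Pi.add_apply, uv, Pi.single_eq_same] at h4 this
      omega

lemma Phi_energy {R : Fin 3 → Fin K → Fin K → Prop} {X Y : Cfg (Fin K)} (hX : Valid R X)
    (hfin : {i | Y i ≠ X i}.Finite) :
    ∑ᶠ Λ, (Phi R Λ Y - Phi R Λ X) = {q | Brk R Y q}.ncard := by
  classical
  simp only [Phi_valid hX, sub_zero]
  rw [← Set.ncard_image_of_injective _ bond_inj, ← finsum_ind _ ((fin_brk hX hfin).image _)]
  refine finsum_congr fun Λ => ?_
  unfold Phi
  congr 1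
  simp only [Set.mem_image, Set.mem_ofPred_eq, eq_iff_iff]
  exact exists_congr fun q => ⟨fun h => ⟨h.2, h.1.symm⟩, fun h => ⟨h.2.symm, h.1⟩⟩

theorem gs_valid {R : Fin 3 → Fin K → Fin K → Prop} (hR : Good R) {ν : Measure (Cfg (Fin K))}
    [IsProbabilityMeasure ν] (h1 : ∀ a, ν.map (sh a) = ν)
    (h2 : ∀ᵐ X ∂ν, ∀ Y : Cfg (Fin K), {i | Y i ≠ X i}.Finite →
      0 ≤ ∑ᶠ Λ : Finset Pt, (Phi R Λ Y - Phi R Λ X)) : ∀ᵐ X ∂ν, Valid R X := by
  classical
  obtain ⟨Z, hZ⟩ := hR.nonempty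
  have hf := loc_dens (Phi_loc R) 1
  obtain ⟨C, hC0, hC⟩ := paste hf
  have h3 : ∀ T : Finset Pt, (∫ X, dens (Phi R) 1 X ∂ν) * T.card ≤ C * bd T := by
    intro T
    have h4 : ∀ᵐ X ∂ν, ∑ a ∈ T, dens (Phi R) 1 (sh a X) ≤ C * bd T := by
      filter_upwards [h2] with X hX
      have hfin : {i | T.piecewise Z X i ≠ X i}.Finite :=
        T.finite_toSet.subset fun i hi => by
          by_contra hcon
          exact hi (T.piecewise_eq_of_notMem _ _ hcon)
      have h5 := hX _ hfin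
      rw [(energy (Phi_loc R) (Phi_inv R) (Phi_range R) hfin).2] at h5
      have h6 := hC T X Z
      have h7 : ∀ a, dens (Phi R) 1 (sh a Z) = 0 := fun a => by
        simp [dens, Phi_valid (valid_sh hZ a)]
      simp only [h7, zero_sub, sum_neg_distrib] at h6
      linarith
    have h5 := integral_mono_ae (integrable_finsetSum _ fun a _ => loc_int (loc_sh hf a) ν)
      (integrable_const _) h4
    rw [integral_finsetSum _ fun a _ => loc_int (loc_sh hf a) ν] at h5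
    simp only [int_sh h1 hf, sum_const, nsmul_eq_mul, integral_const, probReal_univ,
      smul_eq_mul, one_mul] at h5
    linarith
  have h4 := nonpos_of_bd hC0 h3
  refine ae_valid_of fun q => null_of_int q ?_
  have h5 : ∀ X : Cfg (Fin K), (if Brk R X (0, q.2) then (1 : ℝ) else 0) ≤
      2 * dens (Phi R) 1 X := by
    intro X
    have hmem : ({0, uv q.2} : Finset Pt) ∈ LL 1 := by
      refine mem_filter.2 ⟨mem_powerset.2 fun j hj => Fintype.mem_piFinset.2 fun k => ?_, by simp⟩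
      simp only [mem_insert, mem_singleton] at hj
      rcases hj with rfl | rfl
      · simp
      · simp only [uv, Pi.single_apply]; split_ifs <;> simp
    have h6 := single_le_sum (f := fun Λ : Finset Pt => Phi R Λ X / Λ.card)
      (fun Λ _ => div_nonneg (Phi_nonneg R Λ X) (Nat.cast_nonneg _)) hmem
    rw [card_pair (uv_ne q.2).symm] at h6
    change _ ≤ dens (Phi R) 1 X at h6
    split_ifs with hb
    · have : Phi R {0, uv q.2} X = 1 := if_pos ⟨(0, q.2), by simp, hb⟩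
      rw [this] at h6
      push_cast at h6
      linarith
    · have := Phi_nonneg R {0, uv q.2} X
      push_cast at h6
      linarith
  have h6 := integral_mono (loc_int (loc_brk R (0, q.2)) ν) ((loc_int hf ν).const_mul 2) h5
  rw [integral_const_mul] at h6
  have h7 := int_sh h1 (loc_brk R (0, q.2)) q.1
  simp only [brk_sh, zero_add] at h7
  rw [h7]
  refine le_antisymm (by linarith) (integral_nonneg fun X => ?_)
  simp only [Pi.zero_apply]
  split_ifs <;> norm_num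

theorem gen15767 {K : ℕ} (R : Fin 3 → Fin K → Fin K → Prop) (h : Good R) :
  ∃ d : ℕ, 1 ≤ d ∧ ∃ n : ℕ,
    ∃ Adm : (Finset (Fin d → ℤ) → ((Fin d → ℤ) → Fin n) → ℝ) → Prop,
    (∀ Φ, Adm Φ ↔
      (∀ (Λ : Finset (Fin d → ℤ)) (X Y : (Fin d → ℤ) → Fin n),
          (∀ i ∈ Λ, X i = Y i) → Φ Λ X = Φ Λ Y) ∧
      (∀ (Λ : Finset (Fin d → ℤ)) (X : (Fin d → ℤ) → Fin n) (a : Fin d → ℤ),
          Φ (Λ.image (fun i => i + a)) (fun i => X (i - a)) = Φ Λ X) ∧
      (∃ R : ℕ, ∀ Λ : Finset (Fin d → ℤ),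
          (∃ i ∈ Λ, ∃ j ∈ Λ, ∃ k : Fin d, (R : ℤ) < |i k - j k|) →
          ∀ X : (Fin d → ℤ) → Fin n, Φ Λ X = 0)) ∧
    ∃ GSM : (Finset (Fin d → ℤ) → ((Fin d → ℤ) → Fin n) → ℝ) →
        Measure ((Fin d → ℤ) → Fin n) → Prop,
    (∀ Φ μ, GSM Φ μ ↔
      IsProbabilityMeasure μ ∧
      (∀ a : Fin d → ℤ,
          μ.map (fun X : (Fin d → ℤ) → Fin n => fun i => X (i - a)) = μ) ∧
      (∀ᵐ X ∂μ, ∀ Y : (Fin d → ℤ) → Fin n, {i | Y i ≠ X i}.Finite →
          0 ≤ ∑ᶠ Λ : Finset (Fin d → ℤ), (Φ Λ Y - Φ Λ X))) ∧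
    ∃ Φ, Adm Φ ∧ ∃ μ, GSM Φ μ ∧ (∀ ν, GSM Φ ν → ν = μ) ∧
      μ {X | ∃ a : Fin d → ℤ, a ≠ 0 ∧ (fun i => X (i - a)) = X} = 0 ∧
      ∀ Φ', Adm Φ' → ∃ ε₀ : ℝ, 0 < ε₀ ∧ ∀ ε : ℝ, 0 ≤ ε → ε < ε₀ →
        GSM (fun Λ X => Φ Λ X + ε * Φ' Λ X) μ := by
  obtain ⟨μ, h1, h2, h3⟩ := exists_meas h
  refine ⟨3, by norm_num, K, _, fun _ => Iff.rfl, _, fun _ _ => Iff.rfl, Phi R,
    ⟨Phi_loc R, Phi_inv R, 1, Phi_range R⟩, μ, ⟨h1, (inv_iff μ).2 h3, ?_⟩, ?_, ?_, ?_⟩
  · filter_upwards [h2] with X hX Y hfin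
    rw [Phi_energy hX hfin]
    exact Nat.cast_nonneg _
  · rintro ν ⟨h4, h5, h6⟩
    rw [inv_iff] at h5
    exact unique_meas h (gs_valid h h5 h6) h5 h2 h3
  · refine measure_mono_null ?_ (ae_iff.1 h2)
    rintro X ⟨a, ha, hX⟩ hv
    have := h.aperiodic X hv (-a) (neg_ne_zero.2 ha)
    rw [← shift_eq] at this
    exact this hX
  · rintro Φ' ⟨h4, h5, r, h6⟩
    obtain ⟨C, hC0, hC⟩ := sbc h (loc_dens h4 r)
    refine ⟨1 / (C + 1), by positivity, fun ε hε hε' => ⟨h1, (inv_iff μ).2 h3, ?_⟩⟩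
    filter_upwards [h2] with X hX Y hfin
    obtain ⟨h7, h8⟩ := energy h4 h5 h6 hfin
    have h9 := (energy (Phi_loc R) (Phi_inv R) (Phi_range R) hfin).1
    have h10 : ∀ Λ, Phi R Λ Y + ε * Φ' Λ Y - (Phi R Λ X + ε * Φ' Λ X) =
        (Phi R Λ Y - Phi R Λ X) + ε * (Φ' Λ Y - Φ' Λ X) := fun Λ => by ring
    simp only [h10]
    rw [finsum_add_distrib h9 (h7.subset fun Λ hΛ h0 => hΛ (by simp only at h0 ⊢; rw [h0, mul_zero])),
      ← mul_finsum, Phi_energy hX hfin, h8]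
    have h11 := abs_le.1 (hC X Y hX hfin)
    rw [lt_div_iff₀ (by positivity)] at hε'
    have h12 : (0 : ℝ) ≤ {q | Brk R Y q}.ncard := Nat.cast_nonneg _
    have h13 := mul_le_mul_of_nonneg_left h11.1 hε
    nlinarith

end Pool.Agent.H905Z.SBCGen
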